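import Pool.Agent.AE32.Main
import Pool.Agent.GS78.Acyc

/-!
# Binary out-arborescences in tournaments: from oriented trees to binary trees
-/

namespace AE32

open Finset Relation

section desc

variable {τ : Type*} [Fintype τ] {E : τ → τ → Prop}

/-- the descendants of `v` -/
noncomputable def desc (E : τ → τ → Prop) (v : τ) : Finset τ := by
  classical
  exact univ.filter (fun x => ReflTransGen E v x)

theorem mem_desc {v x : τ} : x ∈ desc E v ↔ ReflTransGen E v x := by
  classical
  simp [desc]

theorem self_mem_desc (v : τ) : v ∈ desc E v := mem_desc.2 ReflTransGen.refl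

variable {h : τ → ℕ} (hE : ∀ a b, E a b → h a < h b)

include hE in
theorem rank_le {a b : τ} (hab : ReflTransGen E a b) : h a ≤ h b := by
  induction hab with
  | refl => exact le_rfl
  | tail _ h2 ih => exact ih.trans (hE _ _ h2).le

include hE in
theorem notMem_desc {a b : τ} (hab : E a b) : a ∉ desc E b := by
  intro hm
  have h1 := rank_le hE (mem_desc.1 hm)
  have h2 := hE _ _ hab
  omega

theorem desc_subset {a b : τ} (hab : E a b) : desc E b ⊆ desc E a := by
  intro x hx
  exact mem_desc.2 (ReflTransGen.head hab (mem_desc.1 hx))

variable (hin : ∀ a b c, E a c → E b c → a = b)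

include hin in
theorem comparable {a b x : τ} (ha : ReflTransGen E a x) (hb : ReflTransGen E b x) :
    ReflTransGen E a b ∨ ReflTransGen E b a := by
  induction ha with
  | refl => exact Or.inr hb
  | @tail c d h1 h2 ih =>
    rcases hb.cases_tail with h3 | ⟨e, h3, h4⟩
    · subst h3
      exact Or.inl (h1.tail h2)
    · have := hin _ _ _ h2 h4
      subst this
      exact ih h3

include hE hin in
theorem desc_disjoint {v a b : τ} (ha : E v a) (hb : E v b) (hab : a ≠ b) :
    Disjoint (desc E a) (desc E b) := by
  have key : ∀ a b, E v a → E v b → a ≠ b → ¬ ReflTransGen E a b := by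
    intro a b ha hb hab h1
    rcases h1.cases_tail with h2 | ⟨c, h2, h3⟩
    · exact hab h2.symm
    · have := hin _ _ _ h3 hb
      subst this
      exact notMem_desc hE ha (mem_desc.2 h2)
  rw [disjoint_left]
  intro x hx hx'
  rcases comparable hin (mem_desc.1 hx) (mem_desc.1 hx') with h1 | h1
  · exact key a b ha hb hab h1
  · exact key b a hb ha hab.symm h1

include hin in
/-- in a connected oriented graph with in-degrees at most one some vertex reaches everything -/
theorem exists_root [Nonempty τ] (hh : ∀ a b, E a b → h a < h b) (hc : (SimpleGraph.fromRel E).Connected) :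
    ∃ ρ, desc E ρ = univ := by
  classical
  obtain ⟨ρ, -, hρ⟩ := exists_min_image (univ : Finset τ) h univ_nonempty
  refine ⟨ρ, ?_⟩
  rw [eq_univ_iff_forall]
  intro y
  obtain ⟨w⟩ := hc.preconnected ρ y
  have key : ∀ a b : τ, (SimpleGraph.fromRel E).Walk a b → a ∈ desc E ρ → b ∈ desc E ρ := by
    intro a b w
    induction w with
    | nil => exact id
    | @cons a c b hac w ih =>
      intro ha
      apply ih
      rw [SimpleGraph.fromRel_adj] at hac
      rcases hac.2 with h1 | h1
      · exact mem_desc.2 ((mem_desc.1 ha).tail h1)
      · rcases (mem_desc.1 ha).cases_tail with h2 | ⟨e, h2, h3⟩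
        · subst h2
          have h4 := hh _ _ h1
          have h5 := hρ c (mem_univ _)
          omega
        · have := hin _ _ _ h1 h3
          subst this
          exact mem_desc.2 h2
  exact key _ _ w (self_mem_desc ρ)

end desc

/-- `Rk b s t T`: rank certificate -/
def Rk (b : ℕ) : ℕ → ℕ → BT → Prop
  | _, _, .nil => True
  | s, t, .node l r => ∃ s₁ t₁ s₂ t₂, Rk b s₁ t₁ l ∧ Rk b s₂ t₂ r ∧ s₁ ≤ s ∧ s₂ ≤ s ∧ t₁ ≤ b ∧ t₂ ≤ b ∧
      (s₁ = s → t₁ ≤ t) ∧ (s₂ = s → t₂ ≤ t) ∧ (l ≠ .nil → r ≠ .nil → s₁ = s → s₂ = s → t₁ < t ∧ t₂ < t)

theorem Rk.mono {b s t s' t' : ℕ} {T : BT} (h : Rk b s t T) (hs : s < s' ∨ (s = s' ∧ t ≤ t')) : Rk b s' t' T := by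
  cases T with
  | nil => trivial
  | node l r =>
    obtain ⟨s₁, t₁, s₂, t₂, h1, h2, h3, h4, h5, h6, h7, h8, h9⟩ := h
    refine ⟨s₁, t₁, s₂, t₂, h1, h2, by omega, by omega, h5, h6, ?_, ?_, ?_⟩
    · intro h
      rcases hs with hs | ⟨rfl, hs⟩
      · omega
      · exact (h7 h).trans hs
    · intro h
      rcases hs with hs | ⟨rfl, hs⟩
      · omega
      · exact (h8 h).trans hs
    · intro hl hr h h'
      rcases hs with hs | ⟨rfl, hs⟩
      · omega
      · have := h9 hl hr h h'
        omega

section core

variable {V : Type*} [DecidableEq V] {R : V → V → Prop}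

theorem Core.mono {X b b' : ℕ} {T : BT} (h : Core R X b T) (hb : b ≤ b') : Core R X b' T := by
  induction h generalizing b' with
  | leaf b => exact Core.leaf b'
  | un b T hc ih => exact Core.un b' T (ih hb)
  | path b T L hc hL hP ih => exact Core.path b' T L (ih hb) hL hP
  | branch b S₁ S₂ h1 h2 ih1 ih2 =>
    obtain ⟨c, rfl⟩ : ∃ c, b' = c + 1 := ⟨b' - 1, by omega⟩
    exact Core.branch c S₁ S₂ (ih1 (by omega)) (ih2 (by omega))
  | swap b l r hc ih => exact Core.swap b' l r (ih hb)

theorem core_of_rk {X b s : ℕ} (hm : ∀ s' < s, ∀ t' ≤ b, ∀ L : BT, Rk b s' t' L → PN R X L) (T : BT) :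
    ∀ t, T ≠ .nil → t ≤ b → Rk b s t T → Core R X t T := by
  induction T with
  | nil => exact fun t h => absurd rfl h
  | node l r ihl ihr =>
    intro t _ ht hR
    obtain ⟨s₁, t₁, s₂, t₂, h1, h2, h3, h4, h5, h6, h7, h8, h9⟩ := hR
    have hl' : Rk b s t l := h1.mono (by
      rcases Nat.lt_or_ge s₁ s with h | h
      · exact Or.inl h
      · exact Or.inr ⟨by omega, h7 (by omega)⟩)
    have hr' : Rk b s t r := h2.mono (by
      rcases Nat.lt_or_ge s₂ s with h | h
      · exact Or.inl h
      · exact Or.inr ⟨by omega, h8 (by omega)⟩)
    by_cases hl : l = .nil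
    · by_cases hr : r = .nil
      · subst hl hr
        exact Core.leaf t
      · subst hl
        exact (Core.un t r (ihr t hr ht hr')).swap
    · by_cases hr : r = .nil
      · subst hr
        exact Core.un t l (ihl t hl ht hl')
      · rcases Nat.lt_or_ge s₂ s with hs2 | hs2
        · exact Core.path t l r (ihl t hl ht hl') hr (hm s₂ hs2 t₂ h6 r h2)
        · rcases Nat.lt_or_ge s₁ s with hs1 | hs1
          · exact (Core.path t r l (ihr t hr ht hr') hl (hm s₁ hs1 t₁ h5 l h1)).swap
          · obtain ⟨h10, h11⟩ := h9 hl hr (by omega) (by omega)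
            obtain ⟨c, rfl⟩ : ∃ c, t = c + 1 := ⟨t - 1, by omega⟩
            exact Core.branch c l r (ihl c hl (by omega) (h1.mono (Or.inr ⟨by omega, by omega⟩)))
              (ihr c hr (by omega) (h2.mono (Or.inr ⟨by omega, by omega⟩)))

theorem pn_of_rk (hT : Tour R) (b : ℕ) (s : ℕ) : ∀ (T : BT) (t : ℕ), t ≤ b → Rk b s t T →
    PN R (4 * (b + 1) ^ 2 * 10 ^ (s + 1) - 3 * (b + 1) ^ 2) T := by
  induction s using Nat.strong_induction_on with
  | _ s ih =>
    intro T t ht hR
    have hk2 : 1 ≤ (b + 1) ^ 2 := Nat.one_le_pow _ _ (by omega)
    have hten : 1 ≤ 10 ^ s := Nat.one_le_pow _ _ (by norm_num)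
    have hmul : 4 * (b + 1) ^ 2 * 1 ≤ 4 * (b + 1) ^ 2 * 10 ^ s := Nat.mul_le_mul_left _ hten
    have hX : 1 ≤ 4 * (b + 1) ^ 2 * 10 ^ s - 3 * (b + 1) ^ 2 := by omega
    have hm : ∀ s' < s, ∀ t' ≤ b, ∀ L : BT, Rk b s' t' L →
        PN R (4 * (b + 1) ^ 2 * 10 ^ s - 3 * (b + 1) ^ 2) L := by
      intro s' hs' t' ht' L hL
      refine (ih s' hs' L t' ht' hL).mono ?_
      have : 4 * (b + 1) ^ 2 * 10 ^ (s' + 1) ≤ 4 * (b + 1) ^ 2 * 10 ^ s :=
        Nat.mul_le_mul_left _ (Nat.pow_le_pow_right (by norm_num) hs')
      omega
    cases T with
    | nil => trivial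
    | node l r =>
      obtain ⟨s₁, t₁, s₂, t₂, h1, h2, h3, h4, h5, h6, h7, h8, h9⟩ := hR
      have hl' : Rk b s b l := h1.mono (by
        rcases Nat.lt_or_ge s₁ s with h | h
        · exact Or.inl h
        · exact Or.inr ⟨by omega, h5⟩)
      have hr' : Rk b s b r := h2.mono (by
        rcases Nat.lt_or_ge s₂ s with h | h
        · exact Or.inl h
        · exact Or.inr ⟨by omega, h6⟩)
      have hcore : ∀ u : BT, Rk b s b u → u = .nil ∨ Core R (4 * (b + 1) ^ 2 * 10 ^ s - 3 * (b + 1) ^ 2) b u := by
        intro u hu
        by_cases h : u = .nil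
        · exact Or.inl h
        · exact Or.inr (core_of_rk hm u b h le_rfl hu)
      refine (Core.pn hT hX (hcore l hl') (hcore r hr')).mono ?_
      have e2 : 4 * (b + 1) ^ 2 * 10 ^ (s + 1) = 10 * (4 * (b + 1) ^ 2 * 10 ^ s) := by ring
      rw [e2]
      omega

end core

/-- A binary tree describing the subtree of the oriented tree `E` below `v`. -/
theorem exists_bt {τ : Type*} [Fintype τ] {E : τ → τ → Prop} {h : τ → ℕ} (hE : ∀ a b, E a b → h a < h b)
    (hin : ∀ a b c, E a c → E b c → a = b) (hout : ∀ v, {w | E v w}.ncard ≤ 2) {b : ℕ} {s t : τ → ℕ}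
    (ht : ∀ v, t v ≤ b) (hs : ∀ a c, E a c → s c ≤ s a) (hst : ∀ a c, E a c → s c = s a → t c ≤ t a)
    (hss : ∀ a c d, E a c → E a d → c ≠ d → s c = s a → s d = s a → t c < t a ∧ t d < t a)
    {V : Type*} [DecidableEq V] {R : V → V → Prop} (n : ℕ) :
    ∀ v, (desc E v).card = n → ∃ T : BT, T ≠ .nil ∧ T.size = (desc E v).card ∧ Rk b (s v) (t v) T ∧
      ∀ (x : V) (S : Finset V), Rt R T x S → ∃ f : τ → V, f v = x ∧ (∀ a ∈ desc E v, f a ∈ S) ∧
        (∀ a ∈ desc E v, ∀ b ∈ desc E v, f a = f b → a = b) ∧
        ∀ a ∈ desc E v, ∀ b ∈ desc E v, E a b → R (f a) (f b) := by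
  classical
  induction n using Nat.strong_induction_on with
  | _ n ih =>
    intro v hv
    have hfin : {w | E v w}.Finite := Set.toFinite _
    have hmem : ∀ x, x ∈ desc E v ↔ x = v ∨ ∃ c, E v c ∧ x ∈ desc E c := by
      intro x
      rw [mem_desc, ReflTransGen.cases_head_iff]
      constructor
      · rintro (h1 | ⟨c, h1, h2⟩)
        · exact Or.inl h1.symm
        · exact Or.inr ⟨c, h1, mem_desc.2 h2⟩
      · rintro (h1 | ⟨c, h1, h2⟩)
        · exact Or.inl h1.symm
        · exact Or.inr ⟨c, h1, mem_desc.1 h2⟩
    have hlt : ∀ c, E v c → (desc E c).card < n := by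
      intro c hc
      rw [← hv]
      refine card_lt_card ⟨desc_subset hc, fun hcon => ?_⟩
      exact notMem_desc hE hc (hcon (self_mem_desc v))
    -- the children
    have hcases : (∀ c, ¬ E v c) ∨ (∃ c, ∀ d, E v d ↔ d = c) ∨
        ∃ c d, c ≠ d ∧ ∀ e, E v e ↔ e = c ∨ e = d := by
      have h2 := hout v
      interval_cases hcard : {w | E v w}.ncard
      · left
        intro c hc
        rw [Set.ncard_eq_zero hfin] at hcard
        have : c ∈ {w | E v w} := hc
        rw [hcard] at this
        exact this
      · right; left
        obtain ⟨c, hc⟩ := Set.ncard_eq_one.1 hcard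
        refine ⟨c, fun d => ?_⟩
        have : d ∈ {w | E v w} ↔ d ∈ ({c} : Set τ) := by rw [hc]
        simpa using this
      · right; right
        obtain ⟨c, d, hcd, hc⟩ := Set.ncard_eq_two.1 hcard
        refine ⟨c, d, hcd, fun e => ?_⟩
        have : e ∈ {w | E v w} ↔ e ∈ ({c, d} : Set τ) := by rw [hc]
        simpa using this
    rcases hcases with hc0 | ⟨c, hc⟩ | ⟨c, d, hcd, hc⟩
    · -- a leaf
      have hD : desc E v = {v} := by
        ext x
        rw [hmem, mem_singleton]
        constructor
        · rintro (h1 | ⟨c, h1, -⟩)
          · exact h1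
          · exact absurd h1 (hc0 c)
        · exact Or.inl
      refine ⟨.node .nil .nil, by simp, by rw [hD]; rfl, ?_, ?_⟩
      · exact ⟨0, 0, 0, 0, trivial, trivial, by omega, by omega, by omega, by omega, fun _ => by omega,
          fun _ => by omega, fun h1 => absurd rfl h1⟩
      · intro x S hS
        refine ⟨fun _ => x, rfl, ?_, ?_, ?_⟩
        · intro a _
          exact hS.mem (by simp)
        · intro a ha e he _
          rw [hD, mem_singleton] at ha he
          rw [ha, he]
        · intro a ha e _ hae
          rw [hD, mem_singleton] at ha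
          subst ha
          exact absurd hae (hc0 e)
    · -- one child
      have hvc : E v c := (hc c).2 rfl
      have hD : desc E v = insert v (desc E c) := by
        ext x
        rw [hmem, mem_insert]
        constructor
        · rintro (h1 | ⟨e, h1, h2⟩)
          · exact Or.inl h1
          · rw [(hc e).1 h1] at h2
            exact Or.inr h2
        · rintro (h1 | h1)
          · exact Or.inl h1
          · exact Or.inr ⟨c, hvc, h1⟩
      obtain ⟨T, hT1, hT2, hT3, hT4⟩ := ih _ (hlt c hvc) c rfl
      have hnm := notMem_desc hE hvc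
      refine ⟨.node T .nil, by simp, ?_, ?_, ?_⟩
      · rw [hD, card_insert_of_notMem hnm, ← hT2]
        simp [BT.size]
      · refine ⟨s c, t c, 0, 0, hT3, trivial, hs v c hvc, by omega, ht c, by omega, hst v c hvc, fun _ => by omega,
          fun _ h1 => absurd rfl h1⟩
      · rintro x S ⟨y, A, B, hy, hyA, hyB, hAB, hSe, hA, hB⟩
        subst hy
        obtain ⟨z, hz, hzA⟩ := hA.root hT1
        obtain ⟨f, hf1, hf2, hf3, hf4⟩ := hT4 z A hzA
        have hne : ∀ a ∈ desc E c, a ≠ v := by
          rintro a ha rfl
          exact hnm ha
        refine ⟨fun a => if a = v then y else f a, by simp, ?_, ?_, ?_⟩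
        · intro a ha
          rw [hD, mem_insert] at ha
          rcases ha with rfl | ha
          · simp [hSe]
          · have := hf2 a ha
            simp only [hne a ha, if_false, hSe]
            grind
        · intro a ha e he hae
          rw [hD, mem_insert] at ha he
          rcases ha with rfl | ha
          · rcases he with rfl | he
            · rfl
            · have := hf2 e he
              simp only [hne e he, if_false, if_true] at hae
              rw [← hae] at this
              exact absurd this hyA
          · rcases he with rfl | he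
            · have := hf2 a ha
              simp only [hne a ha, if_false, if_true] at hae
              rw [hae] at this
              exact absurd this hyA
            · simp only [hne a ha, hne e he, if_false] at hae
              exact hf3 a ha e he hae
        · intro a ha e he hae
          rw [hD, mem_insert] at ha he
          rcases ha with rfl | ha
          · have := (hc e).1 hae
            subst this
            simp only [hne e (self_mem_desc e), if_false, if_true, hf1]
            exact hz
          · rcases he with rfl | he
            · have h1 := rank_le hE (mem_desc.1 ha)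
              have h2 := hE _ _ hae
              have h3 := hE _ _ hvc
              omega
            · simp only [hne a ha, hne e he, if_false]
              exact hf4 a ha e he hae
    · -- two children
      have hvc : E v c := (hc c).2 (Or.inl rfl)
      have hvd : E v d := (hc d).2 (Or.inr rfl)
      have hD : desc E v = insert v (desc E c ∪ desc E d) := by
        ext x
        rw [hmem, mem_insert, mem_union]
        constructor
        · rintro (h1 | ⟨e, h1, h2⟩)
          · exact Or.inl h1
          · rcases (hc e).1 h1 with rfl | rfl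
            · exact Or.inr (Or.inl h2)
            · exact Or.inr (Or.inr h2)
        · rintro (h1 | h1 | h1)
          · exact Or.inl h1
          · exact Or.inr ⟨c, hvc, h1⟩
          · exact Or.inr ⟨d, hvd, h1⟩
      obtain ⟨T, hT1, hT2, hT3, hT4⟩ := ih _ (hlt c hvc) c rfl
      obtain ⟨T', hT1', hT2', hT3', hT4'⟩ := ih _ (hlt d hvd) d rfl
      have hnm := notMem_desc hE hvc
      have hnm' := notMem_desc hE hvd
      have hdis := desc_disjoint hE hin hvc hvd hcd
      refine ⟨.node T T', by simp, ?_, ?_, ?_⟩
      · rw [hD, card_insert_of_notMem (by simp [hnm, hnm']), card_union_of_disjoint hdis, ← hT2, ← hT2']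
        simp [BT.size]
      · exact ⟨s c, t c, s d, t d, hT3, hT3', hs v c hvc, hs v d hvd, ht c, ht d, hst v c hvc, hst v d hvd,
          fun _ _ h1 h2 => hss v c d hvc hvd hcd h1 h2⟩
      · rintro x S ⟨y, A, B, hy, hyA, hyB, hAB, hSe, hA, hB⟩
        subst hy
        obtain ⟨z, hz, hzA⟩ := hA.root hT1
        obtain ⟨z', hz', hzB⟩ := hB.root hT1'
        obtain ⟨f, hf1, hf2, hf3, hf4⟩ := hT4 z A hzA
        obtain ⟨f', hf1', hf2', hf3', hf4'⟩ := hT4' z' B hzB
        have hne : ∀ a ∈ desc E c, a ≠ v := by
          rintro a ha rfl
          exact hnm ha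
        have hne' : ∀ a ∈ desc E d, a ≠ v := by
          rintro a ha rfl
          exact hnm' ha
        have hnd : ∀ a ∈ desc E d, a ∉ desc E c := fun a ha ha' => disjoint_left.1 hdis ha' ha
        refine ⟨fun a => if a = v then y else if a ∈ desc E c then f a else f' a, by simp, ?_, ?_, ?_⟩
        · intro a ha
          rw [hD, mem_insert, mem_union] at ha
          rcases ha with rfl | ha | ha
          · simp [hSe]
          · have := hf2 a ha
            simp only [hne a ha, ha, if_false, if_true, hSe]
            grind
          · have := hf2' a ha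
            simp only [hne' a ha, hnd a ha, if_false, hSe]
            grind
        · intro a ha e he hae
          rw [hD, mem_insert, mem_union] at ha he
          rcases ha with rfl | ha | ha
          · rcases he with rfl | he | he
            · rfl
            · have := hf2 e he
              simp only [hne e he, he, if_false, if_true] at hae
              rw [← hae] at this
              exact absurd this hyA
            · have := hf2' e he
              simp only [hne' e he, hnd e he, if_false, if_true] at hae
              rw [← hae] at this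
              exact absurd this hyB
          · rcases he with rfl | he | he
            · have := hf2 a ha
              simp only [hne a ha, ha, if_false, if_true] at hae
              rw [hae] at this
              exact absurd this hyA
            · simp only [hne a ha, hne e he, ha, he, if_false, if_true] at hae
              exact hf3 a ha e he hae
            · simp only [hne a ha, hne' e he, ha, hnd e he, if_false, if_true] at hae
              have h1 := hf2 a ha
              have h2 := hf2' e he
              rw [hae] at h1
              exact absurd h2 (disjoint_left.1 hAB h1)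
          · rcases he with rfl | he | he
            · have := hf2' a ha
              simp only [hne' a ha, hnd a ha, if_false, if_true] at hae
              rw [hae] at this
              exact absurd this hyB
            · simp only [hne' a ha, hne e he, hnd a ha, he, if_false, if_true] at hae
              have h1 := hf2' a ha
              have h2 := hf2 e he
              rw [← hae] at h2
              exact absurd h1 (disjoint_left.1 hAB h2)
            · simp only [hne' a ha, hne' e he, hnd a ha, hnd e he, if_false] at hae
              exact hf3' a ha e he hae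
        · intro a ha e he hae
          rw [hD, mem_insert, mem_union] at ha he
          rcases ha with rfl | ha | ha
          · rcases (hc e).1 hae with rfl | rfl
            · simp only [hne e (self_mem_desc e), self_mem_desc e, if_false, if_true, hf1]
              exact hz
            · simp only [hne' e (self_mem_desc e), hnd e (self_mem_desc e), if_false, if_true, hf1']
              exact hz'
          · have he' : e ∈ desc E c := mem_desc.2 ((mem_desc.1 ha).tail hae)
            simp only [hne a ha, hne e he', ha, he', if_false, if_true]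
            exact hf4 a ha e he' hae
          · have he' : e ∈ desc E d := mem_desc.2 ((mem_desc.1 ha).tail hae)
            simp only [hne' a ha, hne' e he', hnd a ha, hnd e he', if_false]
            exact hf4' a ha e he' hae

end AE32
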