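import Pool.Agent.AE32.Step

/-!
# Binary out-arborescences in tournaments: branch step and closure
-/

namespace AE32

open Finset

variable {V : Type*} [DecidableEq V] {R : V → V → Prop}

theorem Phi.mono {e f a p k e' f' a' p' k' : ℕ} {T : BT} (h : Phi R e f a p k T) (he : e ≤ e') (hf : f ≤ f')
    (ha : a ≤ a') (hp : p ≤ p') (hk : k ≤ k') : Phi R e' f' a' p' k' T := by
  cases T with
  | nil => trivial
  | node l r =>
    intro N A B W P P₀ h1 h2 h3 h4 h5 h6 h7 h8 h9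
    rcases h N A B W P P₀ h1 h2 h3 h4 h5 h6 (ha.trans h7) (hp.trans h8)
      (fun u hu => by
        obtain ⟨K, hK1, hK2, hK3⟩ := h9 u hu
        exact ⟨K, hK1, hk.trans hK2, hK3⟩) with h10 | ⟨w, h10, h11, C, h12, h13, h14⟩
    · exact Or.inl h10
    · refine Or.inr ⟨w, h10, h11, C, h12, h13, ?_⟩
      rcases h14 with h14 | h14
      · exact Or.inl (h14.trans he)
      · exact Or.inr ⟨h14.1, h14.2.trans hf⟩

theorem phi_branch_aux (hT : Tour R) {e f a p k f' : ℕ} {S₁ S₂ : BT} (hS₁ : S₁ ≠ .nil) (hS₂ : S₂ ≠ .nil)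
    (hP₁ : Phi R e f a p k S₁) (hP₂ : Phi R e f a p k S₂) (hef : e ≤ f) {N : V → Prop}
    {A B W P P₀ : Finset V} (h3 : Disjoint A B)
    (h5 : Disjoint W P) (h6 : P₀ ⊆ P) (h7 : a + f ≤ W.card) (h8 : p + f ≤ P₀.card)
    (h9 : ∀ u ∈ P₀, ∃ K ⊆ P, k + f ≤ K.card ∧ ∀ v ∈ K, R u v) {z₁ z₂ : V} (hz₁ : N z₁) (hA : Rt R S₁ z₁ A)
    (hz₂ : N z₂) (hB : Rt R S₂ z₂ B) (hAU : Disjoint A (W ∪ P)) (hBU : Disjoint B (W ∪ P))
    (hI : R z₁ z₂) : OutF R (.node S₁ S₂) N (A ∪ B ∪ (W ∪ P)) ∨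
      OutC R (.node S₁ S₂) N (A ∪ B ∪ (W ∪ P)) (W ∪ P) P₀ (f + 1) f' := by
  have hzA := hA.mem hS₁
  have hzB := hB.mem hS₂
  rcases phi_use hT hS₁ hP₁ hA hAU h5 h6 (by omega) (by omega)
    (fun u hu => by
        obtain ⟨K, hK1, hK2, hK3⟩ := h9 u hu
        exact ⟨K, hK1, by omega, hK3⟩) with ⟨S, h10, h11⟩ | ⟨w, h10, h11, C, h12, h13, h14, h15⟩
  · left
    refine ⟨insert z₁ (S ∪ B), ?_, (rt_mk h11 (hB.under hI) ?_ ?_ ?_).emb hz₁⟩
    · grind
    · grind [disjoint_left]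
    · grind [disjoint_left]
    · rw [disjoint_left] at *
      grind
  have hCf : (C ∩ (W ∪ P)).card ≤ f := by
    rcases h15 with h | h
    · omega
    · exact h.2
  have orig : ∀ w ∈ W ∪ P, R w z₁ → R w z₂ → OutF R (.node S₁ S₂) N (A ∪ B ∪ (W ∪ P)) ∨
      OutC R (.node S₁ S₂) N (A ∪ B ∪ (W ∪ P)) (W ∪ P) P₀ (f + 1) f' := by
    intro w h10 h11 hwl
    refine out_mk (w := w) (C := insert w (A ∪ B)) h10 (by grind) (rt_mk (hA.under h11) (hB.under hwl) ?_ ?_ h3) ?_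
    · grind [disjoint_left]
    · grind [disjoint_left]
    · left
      have : insert w (A ∪ B) ∩ (W ∪ P) ⊆ {w} := by
        rw [disjoint_left] at *
        grind
      have := card_le_card this
      rw [card_singleton] at this
      omega
  by_cases hwl : R w z₂
  · exact orig w h10 h11 hwl
  have hlw : R z₂ w := by
    refine (hT.tot w z₂ ?_).resolve_left hwl
    rintro rfl
    exact disjoint_left.1 hBU hzB h10
  have hc1 : a ≤ (W \ C).card := by
    have h1 : W \ (C ∩ (W ∪ P)) ⊆ W \ C := by grind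
    have h2 := card_le_card h1
    have h3 := le_card_sdiff (C ∩ (W ∪ P)) W
    omega
  have hc2 : p ≤ (P₀ \ C).card := by
    have h1 : P₀ \ (C ∩ (W ∪ P)) ⊆ P₀ \ C := by grind
    have h2 := card_le_card h1
    have h3 := le_card_sdiff (C ∩ (W ∪ P)) P₀
    omega
  rcases phi_use hT hS₂ hP₂ (W := W \ C) (P := P \ C) (P₀ := P₀ \ C) hB (by rw [disjoint_left] at *; grind)
    (by rw [disjoint_left] at *; grind) (by grind) hc1 hc2 (by
      intro u hu
      rw [mem_sdiff] at hu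
      obtain ⟨K, hK1, hK2, hK3⟩ := h9 u hu.1
      refine ⟨K \ C, by grind, ?_, fun v hv => hK3 v (mem_sdiff.1 hv).1⟩
      have h1 : K \ (C ∩ (W ∪ P)) ⊆ K \ C := by grind
      have h2 := card_le_card h1
      have h3 := le_card_sdiff (C ∩ (W ∪ P)) K
      omega) with ⟨S, h16, h17⟩ | ⟨w', h16, h17, C', h18, h19, h20, h21⟩
  · left
    refine ⟨insert z₂ (C ∪ S), ?_, (rt_mk (h13.under hlw) h17 ?_ ?_ ?_).emb hz₂⟩
    · intro x hx
      grind
    · rw [disjoint_left] at *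
      grind
    · rw [disjoint_left] at *
      grind
    · rw [disjoint_left] at *
      grind
  have hw'U : w' ∈ W ∪ P := by grind
  have hw'C : w' ∉ C := by grind
  by_cases hwl' : R w' z₁
  · exact orig w' hw'U hwl' h17
  have hlw' : R z₁ w' := by
    refine (hT.tot w' z₁ ?_).resolve_left hwl'
    rintro rfl
    exact disjoint_left.1 hAU hzA hw'U
  have hCf' : (C' ∩ (W ∪ P)).card ≤ f := by
    have h1 : C' ∩ (W ∪ P) ⊆ C' ∩ (W \ C ∪ P \ C) := by
      rw [disjoint_left] at *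
      grind
    have h2 := card_le_card h1
    rcases h21 with h | h
    · omega
    · omega
  have hne : w ≠ w' := by
    rintro rfl
    exact hw'C h14
  rcases hT.tot w w' hne with h | h
  · refine out_mk (w := w) (C := insert w (A ∪ C')) h10 ?_ (rt_mk (hA.under h11) (h19.under h) ?_ ?_ ?_) ?_
    · intro x hx
      grind
    · rw [disjoint_left] at *
      grind
    · rw [disjoint_left] at *
      grind
    · rw [disjoint_left] at *
      grind
    · left
      have h1 : insert w (A ∪ C') ∩ (W ∪ P) ⊆ insert w (C' ∩ (W ∪ P)) := by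
        rw [disjoint_left] at *
        grind
      have h2 := card_le_card h1
      have h3 := card_insert_le w (C' ∩ (W ∪ P))
      omega
  · refine out_mk (w := w') (C := insert w' (C ∪ B)) hw'U ?_ (rt_mk (h13.under h) (hB.under h17) ?_ ?_ ?_) ?_
    · intro x hx
      grind
    · exact hw'C
    · rw [disjoint_left] at *
      grind
    · rw [disjoint_left] at *
      grind
    · left
      have h1 : insert w' (C ∪ B) ∩ (W ∪ P) ⊆ insert w' (C ∩ (W ∪ P)) := by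
        rw [disjoint_left] at *
        grind
      have h2 := card_le_card h1
      have h3 := card_insert_le w' (C ∩ (W ∪ P))
      omega

theorem phi_branch (hT : Tour R) {e f a p k f' : ℕ} {S₁ S₂ : BT} (hS₁ : S₁ ≠ .nil) (hS₂ : S₂ ≠ .nil)
    (hP₁ : Phi R e f a p k S₁) (hP₂ : Phi R e f a p k S₂) (hef : e ≤ f) :
    Phi R (f + 1) f' (a + f) (p + f) (k + f) (.node S₁ S₂) := by
  intro N A B W P P₀ h1 h2 h3 h4 h5 h6 h7 h8 h9
  obtain ⟨z₁, hz₁, hA⟩ := h1.root hS₁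
  obtain ⟨z₂, hz₂, hB⟩ := h2.root hS₂
  have hzA := hA.mem hS₁
  have hzB := hB.mem hS₂
  have hAU : Disjoint A (W ∪ P) := disjoint_of_subset_left subset_union_left h4
  have hBU : Disjoint B (W ∪ P) := disjoint_of_subset_left subset_union_right h4
  have hzl : z₁ ≠ z₂ := by
    rintro rfl
    exact disjoint_left.1 h3 hzA hzB
  rcases hT.tot z₁ z₂ hzl with hI | hII
  · exact phi_branch_aux hT hS₁ hS₂ hP₁ hP₂ hef h3 h5 h6 h7 h8 h9 hz₁ hA hz₂ hB hAU hBU hI
  · rcases phi_branch_aux (f' := f') hT hS₂ hS₁ hP₂ hP₁ hef h3.symm h5 h6 h7 h8 h9 hz₂ hB hz₁ hA hBU hAU hII with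
      ⟨S, h10, h11⟩ | ⟨w, h10, h11, C, h12, h13, h14⟩
    · exact Or.inl ⟨S, by rwa [union_comm A B], h11.swap⟩
    · exact Or.inr ⟨w, h10, h11, C, by rwa [union_comm A B], h13.swap, h14⟩

omit [DecidableEq V] in
theorem exists_high (hT : Tour R) (n : ℕ) (hn : 1 ≤ n)
    (Y : Finset V) (hY : 2 * n ≤ Y.card) : ∃ v ∈ Y, ∃ K ⊆ Y, n ≤ K.card ∧ ∀ w ∈ K, R v w := by
  classical
  by_contra hcon
  push Not at hcon
  have hcon' : ∀ v ∈ Y, (Y.filter (fun w => R v w)).card ≤ n - 1 := by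
    intro v hv
    by_contra hlt
    obtain ⟨w, hw1, hw2⟩ := hcon v hv (Y.filter (fun w => R v w)) (filter_subset _ _) (by omega)
    exact hw2 (mem_filter.1 hw1).2
  have h1 : ∑ v ∈ Y, (Y.filter (fun w => R v w)).card = ∑ v ∈ Y, (Y.filter (fun w => R w v)).card := by
    simp only [Finset.card_filter]
    rw [Finset.sum_comm]
  have h2 : ∀ v ∈ Y, (Y.filter (fun w => R v w)).card + (Y.filter (fun w => R w v)).card = Y.card - 1 := by
    intro v hv
    rw [← Finset.card_union_of_disjoint]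
    · have : (Y.filter (fun w => R v w)) ∪ (Y.filter (fun w => R w v)) = Y.erase v := by
        ext w
        simp only [Finset.mem_union, Finset.mem_filter, Finset.mem_erase]
        constructor
        · rintro (⟨hw, h⟩ | ⟨hw, h⟩)
          · exact ⟨fun e => hT.irr v (e ▸ h), hw⟩
          · exact ⟨fun e => hT.irr v (e ▸ h), hw⟩
        · rintro ⟨hne, hw⟩
          rcases hT.tot v w (Ne.symm hne) with h | h
          · exact Or.inl ⟨hw, h⟩
          · exact Or.inr ⟨hw, h⟩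
      rw [this, Finset.card_erase_of_mem hv]
    · rw [Finset.disjoint_left]
      intro w hw hw'
      simp only [Finset.mem_filter] at hw hw'
      exact hT.asym v w hw.2 hw'.2
  have h3 : ∑ v ∈ Y, (Y.filter (fun w => R v w)).card + ∑ v ∈ Y, (Y.filter (fun w => R w v)).card
      = Y.card * (Y.card - 1) := by
    rw [← Finset.sum_add_distrib, Finset.sum_congr rfl h2, Finset.sum_const, smul_eq_mul]
  have h4 : ∑ v ∈ Y, (Y.filter (fun w => R v w)).card ≤ Y.card * (n - 1) := by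
    calc _ ≤ ∑ _v ∈ Y, (n - 1) := Finset.sum_le_sum hcon'
      _ = Y.card * (n - 1) := by rw [Finset.sum_const, smul_eq_mul]
  have h5 : Y.card * (Y.card - 1) ≤ Y.card * (2 * (n - 1)) := by
    have : Y.card * (2 * (n - 1)) = 2 * (Y.card * (n - 1)) := by ring
    omega
  have h6 : Y.card - 1 ≤ 2 * (n - 1) := Nat.le_of_mul_le_mul_left h5 (by omega)
  omega

/-- choosing a working pool and a reserve -/
theorem pick (hT : Tour R) (Q : Finset V) (a p k : ℕ) (hk : 1 ≤ k) (h : a + p + 2 * k ≤ Q.card) :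
    ∃ W P P₀ : Finset V, W ⊆ Q ∧ P ⊆ Q ∧ Disjoint W P ∧ P₀ ⊆ P ∧ a ≤ W.card ∧ p ≤ P₀.card ∧
      ∀ u ∈ P₀, ∃ K ⊆ P, k ≤ K.card ∧ ∀ v ∈ K, R u v := by
  classical
  obtain ⟨W, hW1, hW2⟩ := exists_subset_card_eq (s := Q) (n := a) (by omega)
  refine ⟨W, Q \ W, (Q \ W).filter (fun u => ∃ K ⊆ Q \ W, k ≤ K.card ∧ ∀ v ∈ K, R u v), hW1, sdiff_subset,
    disjoint_sdiff, filter_subset _ _, by omega, ?_, fun u hu => (mem_filter.1 hu).2⟩
  have h1 := card_filter_add_card_filter_not (s := Q \ W) (p := fun u => ∃ K ⊆ Q \ W, k ≤ K.card ∧ ∀ v ∈ K, R u v)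
  have h2 := card_sdiff_of_subset hW1
  have h3 : ((Q \ W).filter (fun u => ¬ ∃ K ⊆ Q \ W, k ≤ K.card ∧ ∀ v ∈ K, R u v)).card < 2 * k := by
    by_contra hcon
    obtain ⟨v, hv, K, hK1, hK2, hK3⟩ := exists_high hT k hk _ (not_lt.1 hcon)
    exact (mem_filter.1 hv).2 ⟨K, hK1.trans (filter_subset _ _), hK2, hK3⟩
  omega

theorem pn_leaf : PN R 1 (.node .nil .nil) := by
  intro N A B Q h1 h2 h3 h4 h5
  obtain ⟨w, hw⟩ : Q.Nonempty := card_pos.1 (by omega)
  by_cases hN : N w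
  · left
    refine ⟨{w}, by simpa using Or.inr (Or.inr hw), ?_⟩
    have := rt_mk (R := R) (x := w) (l := .nil) (r := .nil) (A := ∅) (B := ∅) rfl rfl (by simp) (by simp) (by simp)
    simpa using this.emb hN
  · exact Or.inr ⟨w, hw, hN, h1, h2⟩

theorem pn_unary (hT : Tour R) {e f a p k X : ℕ} {T' : BT} (hT' : T' ≠ .nil) (hP : Phi R e f a p k T')
    (hk : 1 ≤ k) (hX : a + p + 2 * k ≤ X) : PN R X (.node T' .nil) := by
  intro N A B Q h1 h2 h3 h4 h5
  have hB : B = ∅ := h2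
  subst hB
  obtain ⟨z, hz, hA⟩ := h1.root hT'
  have hzA := hA.mem hT'
  have hAQ : Disjoint A Q := disjoint_of_subset_left subset_union_left h4
  obtain ⟨W, P, P₀, hW, hP', h6, h7, h8, h9, h10⟩ := pick hT Q a p k hk (by omega)
  rcases phi_use hT hT' hP hA (disjoint_of_subset_right (union_subset hW hP') hAQ) h6 h7 h8 h9 h10 with
    ⟨S, h10, h11⟩ | ⟨w, h10, h11, C, h12, h13, h14, h15⟩
  · left
    refine ⟨insert z (S ∪ ∅), ?_, (rt_mk h11 (show Emb R .nil (R z) ∅ from rfl) ?_ (by simp) (by simp)).emb hz⟩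
    · grind
    · grind [disjoint_left]
  · have hwQ : w ∈ Q := (union_subset hW hP') h10
    by_cases hN : N w
    · left
      refine ⟨insert w (A ∪ ∅), by grind, (rt_mk (hA.under h11) (show Emb R .nil (R w) ∅ from rfl) ?_ (by simp) (by simp)).emb hN⟩
      grind [disjoint_left]
    · exact Or.inr ⟨w, hwQ, hN, hA.under h11, rfl⟩

theorem pn_close_aux (hT : Tour R) {e f a p k : ℕ} {S₁ S₂ : BT} (hS₁ : S₁ ≠ .nil) (hS₂ : S₂ ≠ .nil)
    (hP₁ : Phi R e f a p k S₁) (hP₂ : Phi R e f a p k S₂) (hef : e ≤ f) (hk : 1 ≤ k)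
    {N : V → Prop} {A B Q : Finset V} (h3 : Disjoint A B) (h5 : 2 * (a + p + 2 * k) + f ≤ Q.card) {z₁ z₂ : V}
    (hz₁ : N z₁) (hA : Rt R S₁ z₁ A) (hz₂ : N z₂) (hB : Rt R S₂ z₂ B) (hAQ : Disjoint A Q) (hBQ : Disjoint B Q)
    (hI : R z₁ z₂) : (∃ S ⊆ A ∪ B ∪ Q, Emb R (.node S₁ S₂) N S) ∨
      (∃ w ∈ Q, ¬ N w ∧ Emb R S₁ (R w) A ∧ Emb R S₂ (R w) B) := by
  classical
  have hzA := hA.mem hS₁
  have hzB := hB.mem hS₂
  set G := Q.filter (fun q => R q z₁ ∧ ∃ C ⊆ A.erase z₁ ∪ Q, Rt R S₁ q C ∧ q ∈ C ∧ (C ∩ Q).card ≤ f) with hG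
  have hGm : ∀ q, q ∈ G ↔ q ∈ Q ∧ (R q z₁ ∧ ∃ C ⊆ A.erase z₁ ∪ Q, Rt R S₁ q C ∧ q ∈ C ∧ (C ∩ Q).card ≤ f) := by
    intro q
    rw [hG, mem_filter]
  have hGQ : G ⊆ Q := filter_subset _ _
  have orig : ∀ w ∈ Q, R w z₁ → R w z₂ → (∃ S ⊆ A ∪ B ∪ Q, Emb R (.node S₁ S₂) N S) ∨
      (∃ w ∈ Q, ¬ N w ∧ Emb R S₁ (R w) A ∧ Emb R S₂ (R w) B) := by
    intro w hw h10 h11
    by_cases hN : N w
    · left
      refine ⟨insert w (A ∪ B), by grind, (rt_mk (hA.under h10) (hB.under h11) ?_ ?_ h3).emb hN⟩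
      · grind [disjoint_left]
      · grind [disjoint_left]
    · exact Or.inr ⟨w, hw, hN, hA.under h10, hB.under h11⟩
  by_cases hc : a + p + 2 * k ≤ (Q \ G).card
  · obtain ⟨W, P, P₀, hW, hP', h6, h7, h8, h9, h10⟩ := pick hT (Q \ G) a p k hk hc
    have hWPQ : W ∪ P ⊆ Q := (union_subset hW hP').trans sdiff_subset
    rcases phi_use hT hS₁ hP₁ hA (disjoint_of_subset_right hWPQ hAQ) h6 h7 h8 h9 h10 with
      ⟨S, h11, h12⟩ | ⟨w, h11, h12, C, h13, h14, h15, h16⟩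
    · left
      refine ⟨insert z₁ (S ∪ B), ?_, (rt_mk h12 (hB.under hI) ?_ ?_ ?_).emb hz₁⟩
      · grind
      · grind [disjoint_left]
      · grind [disjoint_left]
      · rw [disjoint_left] at *
        grind
    · exfalso
      have hw := (union_subset hW hP') h11
      rw [mem_sdiff] at hw
      apply hw.2
      rw [hGm]
      refine ⟨hw.1, h12, C, by grind, h14, h15, ?_⟩
      have h1 : C ∩ Q ⊆ C ∩ (W ∪ P) := by
        rw [disjoint_left] at *
        grind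
      have h2 := card_le_card h1
      rcases h16 with h | h
      · omega
      · omega
  · have hGc : (a + p + 2 * k) + f ≤ G.card := by
      have := card_sdiff_add_card_inter Q G
      rw [inter_eq_right.2 hGQ] at this
      omega
    obtain ⟨w, hw⟩ : G.Nonempty := card_pos.1 (by omega)
    obtain ⟨hwQ, hwz, C, hC1, hC2, hC3, hC4⟩ := (hGm w).1 hw
    by_cases hwz2 : R w z₂
    · exact orig w hwQ hwz hwz2
    have hzw : R z₂ w := by
      refine (hT.tot w z₂ ?_).resolve_left hwz2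
      rintro rfl
      exact disjoint_left.1 hBQ hzB hwQ
    have hGC : a + p + 2 * k ≤ (G \ C).card := by
      have h1 : G \ (C ∩ Q) ⊆ G \ C := by grind
      have h2 := card_le_card h1
      have h3 := le_card_sdiff (C ∩ Q) G
      omega
    obtain ⟨W, P, P₀, hW, hP', h6, h7, h8, h9, h10⟩ := pick hT (G \ C) a p k hk hGC
    have hWPG : W ∪ P ⊆ G \ C := union_subset hW hP'
    have hWPQ : W ∪ P ⊆ Q := hWPG.trans (sdiff_subset.trans hGQ)
    rcases phi_use hT hS₂ hP₂ hB (disjoint_of_subset_right hWPQ hBQ) h6 h7 h8 h9 h10 with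
      ⟨S, h11, h12⟩ | ⟨w', h11, h12, -⟩
    · left
      refine ⟨insert z₂ (C ∪ S), ?_, (rt_mk (hC2.under hzw) h12 ?_ ?_ ?_).emb hz₂⟩
      · intro x hx
        grind
      · rw [disjoint_left] at *
        grind
      · rw [disjoint_left] at *
        grind
      · rw [disjoint_left] at *
        intro x hx hx'
        have h20 := h11 hx'
        have h21 := @hWPG x
        grind
    · have h20 := hWPG h11
      rw [mem_sdiff, hGm] at h20
      exact orig w' (hWPQ h11) h20.1.2.1 h12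

theorem pn_close (hT : Tour R) {e f a p k X : ℕ} {S₁ S₂ : BT} (hS₁ : S₁ ≠ .nil) (hS₂ : S₂ ≠ .nil)
    (hP₁ : Phi R e f a p k S₁) (hP₂ : Phi R e f a p k S₂) (hef : e ≤ f) (hk : 1 ≤ k)
    (hX : 2 * (a + p + 2 * k) + f ≤ X) : PN R X (.node S₁ S₂) := by
  intro N A B Q h1 h2 h3 h4 h5
  obtain ⟨z₁, hz₁, hA⟩ := h1.root hS₁
  obtain ⟨z₂, hz₂, hB⟩ := h2.root hS₂
  have hzA := hA.mem hS₁
  have hzB := hB.mem hS₂
  have hAU : Disjoint A Q := disjoint_of_subset_left subset_union_left h4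
  have hBU : Disjoint B Q := disjoint_of_subset_left subset_union_right h4
  have hzl : z₁ ≠ z₂ := by
    rintro rfl
    exact disjoint_left.1 h3 hzA hzB
  rcases hT.tot z₁ z₂ hzl with hI | hII
  · exact pn_close_aux hT hS₁ hS₂ hP₁ hP₂ hef hk h3 (by omega) hz₁ hA hz₂ hB hAU hBU hI
  · rcases pn_close_aux hT hS₂ hS₁ hP₂ hP₁ hef hk h3.symm (by omega) hz₂ hB hz₁ hA hBU hAU hII with
      ⟨S, h10, h11⟩ | ⟨w, h10, h11, h12, h13⟩
    · exact Or.inl ⟨S, by rwa [union_comm A B], h11.swap⟩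
    · exact Or.inr ⟨w, h10, h11, h13, h12⟩

end AE32
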