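import Mathlib

/-!
# Binary out-arborescences in tournaments: definitions
-/

namespace AE32

open Finset

/-- `R` is a tournament. -/
structure Tour {V : Type*} (R : V → V → Prop) : Prop where
  irr : ∀ a, ¬ R a a
  tot : ∀ a b, a ≠ b → R a b ∨ R b a
  asym : ∀ a b, R a b → ¬ R b a

/-- binary trees (`nil` is the empty tree) -/
inductive BT : Type
  | nil : BT
  | node (l r : BT) : BT

/-- the number of nodes -/
def BT.size : BT → ℕ
  | .nil => 0
  | .node l r => l.size + r.size + 1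

variable {V : Type*} [DecidableEq V] {R : V → V → Prop}

/-- `Emb R T N S`: the tree `T` is embedded onto the vertex set `S` with its root at a vertex satisfying `N`. -/
def Emb (R : V → V → Prop) : BT → (V → Prop) → Finset V → Prop
  | .nil, _, S => S = ∅
  | .node l r, N, S => ∃ x A B, N x ∧ x ∉ A ∧ x ∉ B ∧ Disjoint A B ∧ S = insert x (A ∪ B) ∧
      Emb R l (R x) A ∧ Emb R r (R x) B

/-- `T` is embedded onto `S` with root `x`. -/
def Rt (R : V → V → Prop) (T : BT) (x : V) (S : Finset V) : Prop := Emb R T (fun y => y = x) S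

theorem Emb.mono {T : BT} {N N' : V → Prop} {S : Finset V} (h : Emb R T N S) (hN : ∀ x, N x → N' x) :
    Emb R T N' S := by
  cases T with
  | nil => exact h
  | node l r =>
    obtain ⟨x, A, B, h1, h2⟩ := h
    exact ⟨x, A, B, hN x h1, h2⟩

theorem Emb.card {T : BT} {N : V → Prop} {S : Finset V} (h : Emb R T N S) : S.card = T.size := by
  induction T generalizing N S with
  | nil => rw [show S = ∅ from h]; rfl
  | node l r ihl ihr =>
    obtain ⟨x, A, B, h1, h2, h3, h4, h5, h6, h7⟩ := h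
    rw [h5, card_insert_of_notMem (by simp [h2, h3]), card_union_of_disjoint h4, ihl h6, ihr h7]
    rfl

theorem Emb.swap {l r : BT} {N : V → Prop} {S : Finset V} (h : Emb R (.node l r) N S) :
    Emb R (.node r l) N S := by
  obtain ⟨x, A, B, h1, h2, h3, h4, h5, h6, h7⟩ := h
  exact ⟨x, B, A, h1, h3, h2, h4.symm, by rw [h5, union_comm], h7, h6⟩

theorem Rt.mem {T : BT} {x : V} {S : Finset V} (h : Rt R T x S) (hT : T ≠ .nil) : x ∈ S := by
  cases T with
  | nil => exact absurd rfl hT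
  | node l r =>
    obtain ⟨y, A, B, h1, h2, h3, h4, h5, h6⟩ := h
    subst h1
    rw [h5]; simp

theorem Rt.under {T : BT} {x w : V} {S : Finset V} (h : Rt R T x S) (hw : R w x) : Emb R T (R w) S :=
  h.mono (fun y hy => by rw [hy]; exact hw)

theorem Rt.emb {T : BT} {x : V} {N : V → Prop} {S : Finset V} (h : Rt R T x S) (hw : N x) : Emb R T N S :=
  h.mono (fun y hy => by rw [hy]; exact hw)

theorem Emb.root {T : BT} {N : V → Prop} {S : Finset V} (h : Emb R T N S) (hT : T ≠ .nil) :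
    ∃ x, N x ∧ Rt R T x S := by
  cases T with
  | nil => exact absurd rfl hT
  | node l r =>
    obtain ⟨x, A, B, h1, h2⟩ := h
    exact ⟨x, h1, x, A, B, rfl, h2⟩

theorem rt_mk {l r : BT} {x : V} {A B : Finset V} (hl : Emb R l (R x) A) (hr : Emb R r (R x) B)
    (hA : x ∉ A) (hB : x ∉ B) (hAB : Disjoint A B) : Rt R (.node l r) x (insert x (A ∪ B)) :=
  ⟨x, A, B, rfl, hA, hB, hAB, rfl, hl, hr⟩

/-- the basic flexibility property (pool size `X`): for every pool `Q` of size `X`, the tree can be re-embedded with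
the root inside `N`, or some vertex of the pool outside `N` can replace the root. -/
def PN (R : V → V → Prop) (X : ℕ) : BT → Prop
  | .nil => True
  | .node l r => ∀ (N : V → Prop) (A B Q : Finset V), Emb R l N A → Emb R r N B → Disjoint A B →
      Disjoint (A ∪ B) Q → X ≤ Q.card →
      (∃ S ⊆ A ∪ B ∪ Q, Emb R (.node l r) N S) ∨ (∃ w ∈ Q, ¬ N w ∧ Emb R l (R w) A ∧ Emb R r (R w) B)

theorem PN.mono {X Y : ℕ} {T : BT} (h : PN R X T) (hXY : X ≤ Y) : PN R Y T := by
  cases T with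
  | nil => trivial
  | node l r => exact fun N A B Q h1 h2 h3 h4 h5 => h N A B Q h1 h2 h3 h4 (hXY.trans h5)

theorem PN.swap {X : ℕ} {l r : BT} (h : PN R X (.node l r)) : PN R X (.node r l) := by
  intro N A B Q h1 h2 h3 h4 h5
  rcases h N B A Q h2 h1 h3.symm (by rwa [union_comm]) h5 with ⟨S, h6, h7⟩ | ⟨w, h6, h7, h8, h9⟩
  · exact Or.inl ⟨S, by rwa [union_comm A B], h7.swap⟩
  · exact Or.inr ⟨w, h6, h7, h9, h8⟩

/-- the flexibility property for a tree embedded with root `ℓ` -/
theorem PN.call (hT : Tour R) {X : ℕ} {L : BT} (h : PN R X L) (hL : L ≠ .nil) {ℓ : V} {B Q : Finset V}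
    (hB : Rt R L ℓ B) (hd : Disjoint B Q) (hQ : X ≤ Q.card) :
    (∃ y S, R ℓ y ∧ Rt R L y S ∧ S ⊆ B.erase ℓ ∪ Q) ∨ (∃ w ∈ Q, R w ℓ ∧ Rt R L w (insert w (B.erase ℓ))) := by
  cases L with
  | nil => exact absurd rfl hL
  | node l r =>
    obtain ⟨x, A, C, h1, h2, h3, h4, h5, h6, h7⟩ := hB
    subst h1
    have he : B.erase x = A ∪ C := by
      rw [h5, erase_insert]
      simp [h2, h3]
    have hd' : Disjoint (A ∪ C) Q := by
      rw [← he]
      exact disjoint_of_subset_left (erase_subset _ _) hd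
    rw [he]
    rcases h (R x) A C Q h6 h7 h4 hd' hQ with ⟨S, h8, h9⟩ | ⟨w, h8, h9, h10, h11⟩
    · left
      obtain ⟨y, h10, h11⟩ := h9.root (by simp)
      exact ⟨y, S, h10, h11, h8⟩
    · right
      have hwx : w ≠ x := by
        rintro rfl
        exact (disjoint_left.1 hd (by rw [h5]; simp)) h8
      have hw : R w x := (hT.tot w x hwx).resolve_right h9
      refine ⟨w, h8, hw, rt_mk h10 h11 ?_ ?_ h4⟩
      · intro hm
        exact disjoint_left.1 hd' (mem_union_left _ hm) h8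
      · intro hm
        exact disjoint_left.1 hd' (mem_union_right _ hm) h8

/-- first outcome: the tree is embedded inside `Z` with the root in `N` -/
def OutF (R : V → V → Prop) (T : BT) (N : V → Prop) (Z : Finset V) : Prop := ∃ S ⊆ Z, Emb R T N S

/-- second outcome: the tree is embedded inside `Z` with the root at a vertex `w` of the pool `U` outside `N`; only
few vertices of the pool are used. -/
def OutC (R : V → V → Prop) (T : BT) (N : V → Prop) (Z U P₀ : Finset V) (e f : ℕ) : Prop :=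
  ∃ w ∈ U, ¬ N w ∧ ∃ C ⊆ Z, Rt R T w C ∧ ((C ∩ U).card ≤ e ∨ (w ∈ P₀ ∧ (C ∩ U).card ≤ f))

theorem out_mk {T : BT} {N : V → Prop} {Z U P₀ C : Finset V} {e f : ℕ} {w : V} (hw : w ∈ U) (hC : C ⊆ Z)
    (hR : Rt R T w C) (hc : (C ∩ U).card ≤ e ∨ (w ∈ P₀ ∧ (C ∩ U).card ≤ f)) :
    OutF R T N Z ∨ OutC R T N Z U P₀ e f := by
  classical
  by_cases hN : N w
  · exact Or.inl ⟨C, hC, hR.emb hN⟩
  · exact Or.inr ⟨w, hw, hN, C, hC, hR, hc⟩

/-- The main inductive property of a tree. -/
def Phi (R : V → V → Prop) (e f a p k : ℕ) : BT → Prop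
  | .nil => True
  | .node l r => ∀ (N : V → Prop) (A B W P P₀ : Finset V), Emb R l N A → Emb R r N B → Disjoint A B →
      Disjoint (A ∪ B) (W ∪ P) → Disjoint W P → P₀ ⊆ P → a ≤ W.card → p ≤ P₀.card →
      (∀ u ∈ P₀, ∃ K ⊆ P, k ≤ K.card ∧ ∀ v ∈ K, R u v) →
      OutF R (.node l r) N (A ∪ B ∪ (W ∪ P)) ∨ OutC R (.node l r) N (A ∪ B ∪ (W ∪ P)) (W ∪ P) P₀ e f

end AE32
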