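import Pool.Agent.AE32.Arb

/-!
# Binary out-arborescences in tournaments: final theorems
-/

namespace AE32

open Finset Relation

theorem final_aux {k n : ℕ} {R : Fin n → Fin n → Prop} {E : Fin (k + 1) → Fin (k + 1) → Prop}
    (hanti : ∀ a b, E a b → ¬ E b a) (hG : (SimpleGraph.fromRel E).IsTree)
    (hin : ∀ a b c, E a c → E b c → a = b) (hout : ∀ v, {w | E v w}.ncard ≤ 2) {b : ℕ} {s t : Fin (k + 1) → ℕ}
    (ht : ∀ v, t v ≤ b) (hs : ∀ a c, E a c → s c ≤ s a) (hst : ∀ a c, E a c → s c = s a → t c ≤ t a)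
    (hss : ∀ a c d, E a c → E a d → c ≠ d → s c = s a → s d = s a → t c < t a ∧ t d < t a) :
    ∃ T : BT, T.size = k + 1 ∧ (∃ v, Rk b (s v) (t v) T) ∧ ((∃ S, Emb R T (fun _ => True) S) →
      ∃ f : Fin (k + 1) → Fin n, Function.Injective f ∧ ∀ a b, E a b → R (f a) (f b)) := by
  classical
  obtain ⟨h, hE⟩ := GS78.exists_rank hanti hG.2
  obtain ⟨ρ, hρ⟩ := exists_root hin hE hG.1
  obtain ⟨T, hT1, hT2, hT3, hT4⟩ := exists_bt (R := R) hE hin hout ht hs hst hss _ ρ rfl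
  refine ⟨T, by rw [hT2, hρ, card_univ, Fintype.card_fin], ⟨ρ, hT3⟩, ?_⟩
  rintro ⟨S, hS⟩
  obtain ⟨x, -, hx⟩ := hS.root hT1
  obtain ⟨f, -, -, hf3, hf4⟩ := hT4 x S hx
  rw [hρ] at hf3 hf4
  exact ⟨f, fun a b hab => hf3 a (mem_univ _) b (mem_univ _) hab, fun a b hab => hf4 a (mem_univ _) b (mem_univ _) hab⟩

theorem final_rank {k n : ℕ} {R : Fin n → Fin n → Prop} (hT : Tour R) {E : Fin (k + 1) → Fin (k + 1) → Prop}
    (hanti : ∀ a b, E a b → ¬ E b a) (hG : (SimpleGraph.fromRel E).IsTree)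
    (hin : ∀ a b c, E a c → E b c → a = b) (hout : ∀ v, {w | E v w}.ncard ≤ 2) {b S : ℕ} {s t : Fin (k + 1) → ℕ}
    (hS : ∀ v, s v ≤ S) (ht : ∀ v, t v ≤ b) (hs : ∀ a c, E a c → s c ≤ s a)
    (hst : ∀ a c, E a c → s c = s a → t c ≤ t a)
    (hss : ∀ a c d, E a c → E a d → c ≠ d → s c = s a → s d = s a → t c < t a ∧ t d < t a)
    (hn : k + 4 * (b + 1) ^ 2 * 10 ^ (S + 1) ≤ n) :
    ∃ f : Fin (k + 1) → Fin n, Function.Injective f ∧ ∀ a b, E a b → R (f a) (f b) := by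
  classical
  obtain ⟨T, hT1, ⟨v, hT2⟩, hT3⟩ := final_aux (R := R) hanti hG hin hout ht hs hst hss
  apply hT3
  have hk2 : 1 ≤ (b + 1) ^ 2 := Nat.one_le_pow _ _ (by omega)
  have key := embed (V := Fin n) (R := R) (Y := 4 * (b + 1) ^ 2 * 10 ^ (S + 1) - 3 * (b + 1) ^ 2)
    (fun T => ∃ s' ≤ S, ∃ t' ≤ b, Rk b s' t' T) ?_ ?_ T ⟨s v, hS v, t v, ht v, hT2⟩ univ ?_
  · obtain ⟨A, -, hA⟩ := key
    exact ⟨A, hA⟩
  · rintro l r ⟨s', hs', t', ht', s₁, t₁, s₂, t₂, h1, h2, h3, h4, h5, h6, -⟩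
    exact ⟨⟨s₁, by omega, t₁, h5, h1⟩, ⟨s₂, by omega, t₂, h6, h2⟩⟩
  · rintro T ⟨s', hs', t', ht', h1⟩
    refine (pn_of_rk hT b s' T t' ht' h1).mono ?_
    have : 4 * (b + 1) ^ 2 * 10 ^ (s' + 1) ≤ 4 * (b + 1) ^ 2 * 10 ^ (S + 1) :=
      Nat.mul_le_mul_left _ (Nat.pow_le_pow_right (by norm_num) (by omega))
    omega
  · rw [hT1, card_univ, Fintype.card_fin]
    have : 4 * (b + 1) ^ 2 * 1 ≤ 4 * (b + 1) ^ 2 * 10 ^ (S + 1) :=
      Nat.mul_le_mul_left _ (Nat.one_le_pow _ _ (by norm_num))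
    omega

theorem final_size {k n : ℕ} {R : Fin n → Fin n → Prop} (hT : Tour R) {E : Fin (k + 1) → Fin (k + 1) → Prop}
    (hanti : ∀ a b, E a b → ¬ E b a) (hG : (SimpleGraph.fromRel E).IsTree)
    (hin : ∀ a b c, E a c → E b c → a = b) (hout : ∀ v, {w | E v w}.ncard ≤ 2) {m i : ℕ} (hm : 1 ≤ m)
    (hk : k + 1 ≤ m ^ i) (hn : k + 4 * m ^ 2 * 10 ^ i ≤ n) :
    ∃ f : Fin (k + 1) → Fin n, Function.Injective f ∧ ∀ a b, E a b → R (f a) (f b) := by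
  classical
  obtain ⟨h, hE⟩ := GS78.exists_rank hanti hG.2
  have hlt : ∀ a c, E a c → (desc E c).card < (desc E a).card := by
    intro a c hac
    exact card_lt_card ⟨desc_subset hac, fun hcon => notMem_desc hE hac (hcon (self_mem_desc a))⟩
  obtain ⟨T, hT1, -, hT3⟩ := final_aux (R := R) hanti hG hin hout (b := 0) (s := fun v => (desc E v).card)
    (t := fun _ => 0) (fun _ => le_rfl) (fun a c hac => (hlt a c hac).le)
    (fun a c hac hcon => absurd hcon (hlt a c hac).ne)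
    (fun a c d hac _ _ hcon => absurd hcon (hlt a c hac).ne)
  apply hT3
  have hk2 : 1 ≤ m ^ 2 := Nat.one_le_pow _ _ hm
  have key := embed (V := Fin n) (R := R) (Y := 4 * m ^ 2 * 10 ^ i - 3 * m ^ 2)
    (fun T => T.size ≤ m ^ i) ?_ ?_ T (by show T.size ≤ m ^ i; omega) univ ?_
  · obtain ⟨A, -, hA⟩ := key
    exact ⟨A, hA⟩
  · intro l r hlr
    have hsz : (BT.node l r).size = l.size + r.size + 1 := rfl
    simp only [hsz] at hlr
    exact ⟨by show l.size ≤ m ^ i; omega, by show r.size ≤ m ^ i; omega⟩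
  · exact pn_of_size hT m hm i
  · rw [hT1, card_univ, Fintype.card_fin]
    have : 4 * m ^ 2 * 1 ≤ 4 * m ^ 2 * 10 ^ i :=
      Nat.mul_le_mul_left _ (Nat.one_le_pow _ _ (by norm_num))
    omega

end AE32
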