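import Pool.Agent.AE32.Close

/-!
# Binary out-arborescences in tournaments: the class induction
-/

namespace AE32

open Finset

variable {V : Type*} [DecidableEq V] {R : V → V → Prop}

/-- Trees built from small flexible subtrees, with at most `b` large branchings on every path from the root. -/
inductive Core (R : V → V → Prop) (X : ℕ) : ℕ → BT → Prop
  | leaf (b : ℕ) : Core R X b (.node .nil .nil)
  | un (b : ℕ) (T : BT) : Core R X b T → Core R X b (.node T .nil)
  | path (b : ℕ) (T L : BT) : Core R X b T → L ≠ .nil → PN R X L → Core R X b (.node T L)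
  | branch (b : ℕ) (S₁ S₂ : BT) : Core R X b S₁ → Core R X b S₂ → Core R X (b + 1) (.node S₁ S₂)
  | swap (b : ℕ) (l r : BT) : Core R X b (.node l r) → Core R X b (.node r l)

theorem Core.ne_nil {X b : ℕ} {T : BT} (h : Core R X b T) : T ≠ .nil := by
  cases h <;> simp

theorem Core.phi (hT : Tour R) {X : ℕ} (hX : 1 ≤ X) {b : ℕ} {T : BT} (h : Core R X b T) :
    Phi R (3 * b + 2) (3 * b + 4) (X + 2 * b * (b + 1)) (2 * X + 3 * b + 2 + 2 * b * (b + 1))
      (X + 3 * b + 4 + 2 * b * (b + 1)) T := by
  induction h with
  | leaf b => exact phi_leaf (by omega) (by omega)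
  | un b T hc ih => exact phi_unary hT hc.ne_nil ih (by omega)
  | path b T L hc hL hP ih =>
    exact phi_path hT hc.ne_nil hL ih hP (by omega) (by omega) (by omega) hX (by omega) (by omega)
  | branch b S₁ S₂ h1 h2 ih1 ih2 =>
    refine (phi_branch (f' := 3 * (b + 1) + 4) hT h1.ne_nil h2.ne_nil ih1 ih2 (by omega)).mono (by omega) le_rfl ?_ ?_ ?_
    · have : 2 * (b + 1) * (b + 1 + 1) = 2 * b * (b + 1) + 4 * (b + 1) := by ring
      omega
    · have : 2 * (b + 1) * (b + 1 + 1) = 2 * b * (b + 1) + 4 * (b + 1) := by ring
      omega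
    · have : 2 * (b + 1) * (b + 1 + 1) = 2 * b * (b + 1) + 4 * (b + 1) := by ring
      omega
  | swap b l r hc ih => exact phi_swap ih

/-- the new pool size -/
theorem Core.pn (hT : Tour R) {X : ℕ} (hX : 1 ≤ X) {b : ℕ} {l r : BT} (hl : l = .nil ∨ Core R X b l)
    (hr : r = .nil ∨ Core R X b r) : PN R (10 * X + 24 * (b + 1) ^ 2) (.node l r) := by
  have hnum : 2 * ((X + 2 * b * (b + 1)) + (2 * X + 3 * b + 2 + 2 * b * (b + 1)) +
      2 * (X + 3 * b + 4 + 2 * b * (b + 1))) + (3 * b + 4) ≤ 10 * X + 24 * (b + 1) ^ 2 := by
    nlinarith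
  rcases hl with rfl | hl
  · rcases hr with rfl | hr
    · exact pn_leaf.mono (by omega)
    · exact (pn_unary hT hr.ne_nil (hr.phi hT hX) (by omega) (by omega)).swap
  · rcases hr with rfl | hr
    · exact pn_unary hT hl.ne_nil (hl.phi hT hX) (by omega) (by omega)
    · exact pn_close hT hl.ne_nil hr.ne_nil (hl.phi hT hX) (hr.phi hT hX) (by omega) (by omega) hnum

/-- small subtrees: trees of size at most `(b + 1) * m` -/
theorem core_of_size {X m : ℕ} (hm : ∀ L : BT, L.size ≤ m → PN R X L) (T : BT) : ∀ b, T ≠ .nil →
    T.size ≤ (b + 1) * m → Core R X b T := by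
  induction T with
  | nil => exact fun _ h => absurd rfl h
  | node l r ihl ihr =>
    intro b _ hs
    have hsz : (BT.node l r).size = l.size + r.size + 1 := rfl
    rw [hsz] at hs
    by_cases hl : l = .nil
    · by_cases hr : r = .nil
      · subst hl hr
        exact Core.leaf b
      · subst hl
        exact (Core.un b r (ihr b hr (by omega))).swap
    · by_cases hr : r = .nil
      · subst hr
        exact Core.un b l (ihl b hl (by omega))
      · by_cases h1 : r.size ≤ m
        · exact Core.path b l r (ihl b hl (by omega)) hr (hm r h1)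
        · by_cases h2 : l.size ≤ m
          · exact (Core.path b r l (ihr b hr (by omega)) hl (hm l h2)).swap
          · cases b with
            | zero => omega
            | succ b =>
              have e : (b + 1 + 1) * m = (b + 1) * m + m := by ring
              exact Core.branch b l r (ihl b hl (by omega)) (ihr b hr (by omega))

/-- trees with at most `k ^ i` vertices -/
theorem pn_of_size (hT : Tour R) (k : ℕ) (hk : 1 ≤ k) (i : ℕ) : ∀ T : BT, T.size ≤ k ^ i →
    PN R (4 * k ^ 2 * 10 ^ i - 3 * k ^ 2) T := by
  induction i with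
  | zero =>
    intro T hs
    have h1 : 1 ≤ 4 * k ^ 2 * 10 ^ 0 - 3 * k ^ 2 := by
      have : 1 ≤ k ^ 2 := Nat.one_le_pow _ _ hk
      omega
    cases T with
    | nil => trivial
    | node l r =>
      have hsz : (BT.node l r).size = l.size + r.size + 1 := rfl
      rw [hsz, pow_zero] at hs
      cases l with
      | node a b => simp only [BT.size] at hs; omega
      | nil =>
        cases r with
        | node a b => simp only [BT.size] at hs; omega
        | nil => exact pn_leaf.mono h1
  | succ i ih =>
    intro T hs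
    have hk2 : 1 ≤ k ^ 2 := Nat.one_le_pow _ _ hk
    have hten : 1 ≤ 10 ^ i := Nat.one_le_pow _ _ (by norm_num)
    have hX : 1 ≤ 4 * k ^ 2 * 10 ^ i - 3 * k ^ 2 := by
      have : 4 * k ^ 2 * 1 ≤ 4 * k ^ 2 * 10 ^ i := Nat.mul_le_mul_left _ hten
      omega
    cases T with
    | nil => trivial
    | node l r =>
      have hsz : (BT.node l r).size = l.size + r.size + 1 := rfl
      rw [hsz] at hs
      obtain ⟨b, rfl⟩ : ∃ b, k = b + 1 := ⟨k - 1, by omega⟩
      have e : (b + 1) ^ (i + 1) = (b + 1) * (b + 1) ^ i := by ring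
      have hcore : ∀ t : BT, t.size ≤ (b + 1) ^ (i + 1) →
          t = .nil ∨ Core R (4 * (b + 1) ^ 2 * 10 ^ i - 3 * (b + 1) ^ 2) b t := by
        intro t ht
        by_cases h : t = .nil
        · exact Or.inl h
        · exact Or.inr (core_of_size ih t b h (by rw [← e]; exact ht))
      refine (Core.pn hT hX (hcore l (by omega)) (hcore r (by omega))).mono ?_
      have e2 : 4 * (b + 1) ^ 2 * 10 ^ (i + 1) = 10 * (4 * (b + 1) ^ 2 * 10 ^ i) := by ring
      rw [e2]
      have : 4 * (b + 1) ^ 2 * 1 ≤ 4 * (b + 1) ^ 2 * 10 ^ i := Nat.mul_le_mul_left _ hten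
      omega

/-- the Strahler number -/
def BT.st : BT → ℕ
  | .nil => 0
  | .node l r => if l.st = r.st then l.st + 1 else max l.st r.st

theorem BT.st_pos {T : BT} (h : T ≠ .nil) : 1 ≤ T.st := by
  induction T with
  | nil => exact absurd rfl h
  | node l r ihl ihr =>
    rw [BT.st]
    split_ifs with h1
    · omega
    · by_contra hcon
      have : l.st ≤ max l.st r.st := le_max_left _ _
      have : r.st ≤ max l.st r.st := le_max_right _ _
      omega

theorem core_of_st {X s : ℕ} (hm : ∀ L : BT, L.st ≤ s → PN R X L) (T : BT) : T ≠ .nil →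
    T.st ≤ s + 1 → Core R X 0 T := by
  induction T with
  | nil => exact fun h => absurd rfl h
  | node l r ihl ihr =>
    intro _ hs
    rw [BT.st] at hs
    by_cases hl : l = .nil
    · by_cases hr : r = .nil
      · subst hl hr
        exact Core.leaf 0
      · subst hl
        refine (Core.un 0 r (ihr hr ?_)).swap
        split_ifs at hs with h1
        · omega
        · exact le_trans (le_max_right _ _) hs
    · by_cases hr : r = .nil
      · subst hr
        refine Core.un 0 l (ihl hl ?_)
        split_ifs at hs with h1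
        · omega
        · exact le_trans (le_max_left _ _) hs
      · split_ifs at hs with h1
        · exact Core.path 0 l r (ihl hl (by omega)) hr (hm r (by omega))
        · have h2 : l.st ≤ max l.st r.st := le_max_left _ _
          have h3 : r.st ≤ max l.st r.st := le_max_right _ _
          rcases Nat.lt_or_gt_of_ne h1 with h4 | h4
          · exact (Core.path 0 r l (ihr hr (by omega)) hl (hm l (by omega))).swap
          · exact Core.path 0 l r (ihl hl (by omega)) hr (hm r (by omega))

theorem pn_of_st (hT : Tour R) (s : ℕ) : ∀ T : BT, T.st ≤ s → PN R (4 * 10 ^ s - 3) T := by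
  induction s with
  | zero =>
    intro T hs
    cases T with
    | nil => trivial
    | node l r =>
      have := BT.st_pos (T := .node l r) (by simp)
      omega
  | succ s ih =>
    intro T hs
    have hten : 1 ≤ 10 ^ s := Nat.one_le_pow _ _ (by norm_num)
    cases T with
    | nil => trivial
    | node l r =>
      have hcore : ∀ t : BT, t.st ≤ s + 1 → t = .nil ∨ Core R (4 * 10 ^ s - 3) 0 t := by
        intro t ht
        by_cases h : t = .nil
        · exact Or.inl h
        · exact Or.inr (core_of_st ih t h ht)
      have hst : (BT.node l r).st = if l.st = r.st then l.st + 1 else max l.st r.st := rfl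
      have hl : l.st ≤ s + 1 := by
        rw [hst] at hs
        split_ifs at hs with h1
        · omega
        · exact le_trans (le_max_left _ _) hs
      have hr : r.st ≤ s + 1 := by
        rw [hst] at hs
        split_ifs at hs with h1
        · omega
        · exact le_trans (le_max_right _ _) hs
      refine (Core.pn hT (by omega) (hcore l hl) (hcore r hr)).mono ?_
      have e2 : 10 ^ (s + 1) = 10 * 10 ^ s := by ring
      rw [e2]
      omega

/-- embedding a tree from the flexibility of its subtrees -/
theorem embed {Y : ℕ} (𝒞 : BT → Prop) (hc : ∀ l r, 𝒞 (.node l r) → 𝒞 l ∧ 𝒞 r) (hP : ∀ T, 𝒞 T → PN R Y T) (T : BT) :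
    𝒞 T → ∀ U : Finset V, T.size + Y ≤ U.card + 1 → ∃ S ⊆ U, Emb R T (fun _ => True) S := by
  induction T with
  | nil => exact fun _ U _ => ⟨∅, by simp, rfl⟩
  | node l r ihl ihr =>
    intro hT U hU
    have hsz : (BT.node l r).size = l.size + r.size + 1 := rfl
    rw [hsz] at hU
    obtain ⟨h1, h2⟩ := hc l r hT
    obtain ⟨A, hA1, hA2⟩ := ihl h1 U (by omega)
    have hAc := hA2.card
    have hUA := card_sdiff_of_subset hA1
    obtain ⟨B, hB1, hB2⟩ := ihr h2 (U \ A) (by omega)
    have hBc := hB2.card
    have hUB := card_sdiff_of_subset hB1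
    rcases hP _ hT (fun _ => True) A B ((U \ A) \ B) hA2 hB2 (by rw [disjoint_left]; grind)
      (by rw [disjoint_left]; grind) (by omega) with ⟨S, h3, h4⟩ | ⟨w, -, h5, -⟩
    · exact ⟨S, by grind, h4⟩
    · exact absurd trivial h5

end AE32
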