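import Pool.Agent.AE32.Defs

/-!
# Binary out-arborescences in tournaments: the inductive steps
-/

namespace AE32

open Finset

variable {V : Type*} [DecidableEq V] {R : V → V → Prop}

theorem phi_swap {e f a p k : ℕ} {l r : BT} (h : Phi R e f a p k (.node l r)) : Phi R e f a p k (.node r l) := by
  intro N A B W P P₀ h1 h2 h3 h4 h5 h6 h7 h8 h9
  rcases h N B A W P P₀ h2 h1 h3.symm (by rwa [union_comm]) h5 h6 h7 h8 h9 with ⟨S, h10, h11⟩ | ⟨w, h10, h11, C, h12, h13, h14⟩
  · exact Or.inl ⟨S, by rwa [union_comm A B], h11.swap⟩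
  · exact Or.inr ⟨w, h10, h11, C, by rwa [union_comm A B], h13.swap, h14⟩

theorem phi_leaf {e f a p k : ℕ} (he : 1 ≤ e) (ha : 1 ≤ a) : Phi R e f a p k (.node .nil .nil) := by
  intro N A B W P P₀ h1 h2 h3 h4 h5 h6 h7 h8 h9
  obtain ⟨w, hw⟩ : W.Nonempty := card_pos.1 (by omega)
  refine out_mk (w := w) (C := {w}) (mem_union_left _ hw) ?_ ?_ ?_
  · intro x hx
    rw [mem_singleton] at hx
    subst hx
    simp [hw]
  · have := rt_mk (R := R) (x := w) (l := .nil) (r := .nil) (A := ∅) (B := ∅) rfl rfl (by simp) (by simp) (by simp)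
    simpa using this
  · left
    refine le_trans (card_le_card inter_subset_left) ?_
    simpa using he

/-- the subtree with root `z`: all the data in one place -/
theorem phi_use (hT : Tour R) {e f a p k : ℕ} {T' : BT} (hT' : T' ≠ .nil) (hP : Phi R e f a p k T') {z : V}
    {A W P P₀ : Finset V} (hA : Rt R T' z A) (h4 : Disjoint A (W ∪ P)) (h5 : Disjoint W P) (h6 : P₀ ⊆ P)
    (h7 : a ≤ W.card) (h8 : p ≤ P₀.card) (h9 : ∀ u ∈ P₀, ∃ K ⊆ P, k ≤ K.card ∧ ∀ v ∈ K, R u v) :
    (∃ S ⊆ A.erase z ∪ (W ∪ P), Emb R T' (R z) S) ∨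
      ∃ w ∈ W ∪ P, R w z ∧ ∃ C ⊆ A.erase z ∪ (W ∪ P), Rt R T' w C ∧ w ∈ C ∧
        ((C ∩ (W ∪ P)).card ≤ e ∨ (w ∈ P₀ ∧ (C ∩ (W ∪ P)).card ≤ f)) := by
  have hzA := hA.mem hT'
  cases T' with
  | nil => exact absurd rfl hT'
  | node l r =>
    obtain ⟨y, A₁, A₂, hy, hy1, hy2, hy3, hy4, hy5, hy6⟩ := hA
    subst hy
    have he : A.erase y = A₁ ∪ A₂ := by
      rw [hy4, erase_insert]
      simp [hy1, hy2]
    have hd : Disjoint (A₁ ∪ A₂) (W ∪ P) := by
      rw [← he]
      exact disjoint_of_subset_left (erase_subset _ _) h4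
    rw [he]
    rcases hP (R y) A₁ A₂ W P P₀ hy5 hy6 hy3 hd h5 h6 h7 h8 h9 with ⟨S, h10, h11⟩ | ⟨w, h10, h11, C, h12, h13, h14⟩
    · exact Or.inl ⟨S, h10, h11⟩
    · right
      have hwy : w ≠ y := by
        rintro rfl
        exact disjoint_left.1 h4 hzA h10
      exact ⟨w, h10, (hT.tot w y hwy).resolve_right h11, C, h12, h13, h13.mem (by simp), h14⟩

theorem phi_unary (hT : Tour R) {e f a p k : ℕ} {T' : BT} (hT' : T' ≠ .nil) (hP : Phi R e f a p k T') (he : 1 ≤ e) :
    Phi R e f a p k (.node T' .nil) := by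
  intro N A B W P P₀ h1 h2 h3 h4 h5 h6 h7 h8 h9
  have hB : B = ∅ := h2
  subst hB
  obtain ⟨z, hz, hA⟩ := h1.root hT'
  have hzA := hA.mem hT'
  have hAU : Disjoint A (W ∪ P) := disjoint_of_subset_left subset_union_left h4
  rcases phi_use hT hT' hP hA hAU h5 h6 h7 h8 h9 with ⟨S, h10, h11⟩ | ⟨w, h10, h11, C, h12, h13, h14, h15⟩
  · left
    refine ⟨insert z (S ∪ ∅), ?_, (rt_mk h11 (show Emb R .nil (R z) ∅ from rfl) ?_ (by simp) (by simp)).emb hz⟩
    · grind
    · grind [disjoint_left]
  · refine out_mk (w := w) (C := insert w (A ∪ ∅)) h10 (by grind)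
      (rt_mk (hA.under h11) (show Emb R .nil (R w) ∅ from rfl) ?_ (by simp) (by simp)) ?_
    · grind [disjoint_left]
    · left
      have : insert w (A ∪ ∅) ∩ (W ∪ P) ⊆ {w} := by grind [disjoint_left]
      exact (card_le_card this).trans (by simpa using he)

theorem card_le_two' {S : Finset V} {a b : V} (h : S ⊆ {a, b}) : S.card ≤ 2 :=
  (card_le_card h).trans card_le_two

theorem phi_path_I (hT : Tour R) {X e f a p k : ℕ} {T' L : BT} (hT' : T' ≠ .nil) (hLn : L ≠ .nil)
    (hP : Phi R e f a p k T') (hL : PN R X L) (he : 2 ≤ e) (hf : e + 2 ≤ f)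
    (hp : 2 * X + e ≤ p) (hk : X + f ≤ k) {N : V → Prop} {A B W P P₀ : Finset V} (h3 : Disjoint A B)
    (h5 : Disjoint W P) (h6 : P₀ ⊆ P) (h7 : a ≤ W.card) (h8 : p ≤ P₀.card)
    (h9 : ∀ u ∈ P₀, ∃ K ⊆ P, k ≤ K.card ∧ ∀ v ∈ K, R u v) {z ℓ : V} (hz : N z) (hA : Rt R T' z A) (hℓ : N ℓ)
    (hB : Rt R L ℓ B) (hzA : z ∈ A) (hℓB : ℓ ∈ B) (hAU : Disjoint A (W ∪ P)) (hBU : Disjoint B (W ∪ P))
    (hI : R z ℓ) : OutF R (.node T' L) N (A ∪ B ∪ (W ∪ P)) ∨
      OutC R (.node T' L) N (A ∪ B ∪ (W ∪ P)) (W ∪ P) P₀ e f := by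
  classical
  rcases phi_use hT hT' hP hA hAU h5 h6 h7 h8 h9 with ⟨S, h10, h11⟩ | ⟨w, h10, h11, C, h12, h13, h14, h15⟩
  · left
    refine ⟨insert z (S ∪ B), ?_, (rt_mk h11 (hB.under hI) ?_ ?_ ?_).emb hz⟩
    · grind
    · grind [disjoint_left]
    · grind [disjoint_left]
    · rw [disjoint_left] at *
      grind
  · by_cases hwl : R w ℓ
    · refine out_mk (w := w) (C := insert w (A ∪ B)) h10 (by grind) (rt_mk (hA.under h11) (hB.under hwl) ?_ ?_ h3) ?_
      · grind [disjoint_left]
      · grind [disjoint_left]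
      · left
        have : insert w (A ∪ B) ∩ (W ∪ P) ⊆ {w} := by
          rw [disjoint_left] at *
          grind
        have := card_le_card this
        rw [card_singleton] at this
        omega
    · have hlw : R ℓ w := by
        refine (hT.tot w ℓ ?_).resolve_left hwl
        rintro rfl
        exact disjoint_left.1 hBU hℓB h10
      set G := (P.filter (fun v => R w v)) \ C with hG
      have hGm : ∀ v, v ∈ G ↔ (v ∈ P ∧ R w v) ∧ v ∉ C := by
        intro v
        rw [hG, mem_sdiff, mem_filter]
      by_cases hGX : X ≤ G.card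
      · have hd : Disjoint B G := by
          rw [disjoint_left] at *
          grind
        rcases hL.call hT hLn hB hd hGX with ⟨y, S, h16, h17, h18⟩ | ⟨v, h16, h17, h18⟩
        · left
          refine ⟨insert ℓ (C ∪ S), ?_, (rt_mk (h13.under hlw) (h17.under h16) ?_ ?_ ?_).emb hℓ⟩
          · intro x hx
            rw [disjoint_left] at *
            grind
          · rw [disjoint_left] at *
            grind
          · rw [disjoint_left] at *
            grind
          · rw [disjoint_left] at *
            grind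
        · rw [hGm] at h16
          refine out_mk (w := w) (C := insert w (A ∪ insert v (B.erase ℓ))) h10 ?_
            (rt_mk (hA.under h11) (h18.under h16.1.2) ?_ ?_ ?_) ?_
          · intro x hx
            rw [disjoint_left] at *
            grind
          · rw [disjoint_left] at *
            grind
          · rw [disjoint_left] at *
            grind
          · rw [disjoint_left] at *
            grind
          · left
            refine (card_le_two' (a := w) (b := v) ?_).trans he
            rw [disjoint_left] at *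
            intro x hx
            grind
      · have hce : (C ∩ (W ∪ P)).card ≤ e := by
          rcases h15 with h | ⟨h16, h17⟩
          · exact h
          · exfalso
            obtain ⟨K, h18, h19, h20⟩ := h9 w h16
            have h21 : K \ (C ∩ (W ∪ P)) ⊆ G := by
              intro x hx
              rw [hGm]
              grind
            have h22 := card_le_card h21
            have h23 := le_card_sdiff (C ∩ (W ∪ P)) K
            omega
        set G' := (P₀.filter (fun u => R u w)) \ C with hG'
        have hGm' : ∀ v, v ∈ G' ↔ (v ∈ P₀ ∧ R v w) ∧ v ∉ C := by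
          intro v
          rw [hG', mem_sdiff, mem_filter]
        have hG'c : X ≤ G'.card := by
          have h21 : P₀ ⊆ G ∪ G' ∪ (C ∩ (W ∪ P)) := by
            intro x hx
            rw [mem_union, mem_union, hGm, hGm']
            have hxP := h6 hx
            by_cases hxC : x ∈ C
            · right
              grind
            · left
              have hxw : w ≠ x := by
                rintro rfl
                exact hxC h14
              rcases hT.tot w x hxw with h | h
              · exact Or.inl ⟨⟨hxP, h⟩, hxC⟩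
              · exact Or.inr ⟨⟨hx, h⟩, hxC⟩
          have h22 := card_le_card h21
          have h23 := card_union_le (G ∪ G') (C ∩ (W ∪ P))
          have h24 := card_union_le G G'
          omega
        by_cases hH : ∃ u ∈ G', R u ℓ
        · obtain ⟨u, hu1, hu2⟩ := hH
          rw [hGm'] at hu1
          have huP := h6 hu1.1.1
          refine out_mk (w := u) (C := insert u (C ∪ B)) ?_ ?_ (rt_mk (h13.under hu1.1.2) (hB.under hu2) ?_ ?_ ?_) ?_
          · exact mem_union_right _ huP
          · intro x hx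
            rw [disjoint_left] at *
            grind
          · exact hu1.2
          · rw [disjoint_left] at *
            grind
          · rw [disjoint_left] at *
            grind
          · right
            refine ⟨hu1.1.1, ?_⟩
            have h21 : insert u (C ∪ B) ∩ (W ∪ P) ⊆ insert u (C ∩ (W ∪ P)) := by
              rw [disjoint_left] at *
              intro x hx
              grind
            have h22 := card_le_card h21
            have h23 := card_insert_le u (C ∩ (W ∪ P))
            omega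
        · have hd : Disjoint B G' := by
            rw [disjoint_left] at *
            intro x hx
            rw [hGm']
            grind
          rcases hL.call hT hLn hB hd hG'c with ⟨y, S, h16, h17, h18⟩ | ⟨v, h16, h17, h18⟩
          · left
            refine ⟨insert ℓ (C ∪ S), ?_, (rt_mk (h13.under hlw) (h17.under h16) ?_ ?_ ?_).emb hℓ⟩
            · intro x hx
              rw [disjoint_left] at *
              grind
            · rw [disjoint_left] at *
              grind
            · rw [disjoint_left] at *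
              grind
            · rw [disjoint_left] at *
              grind
          · exact absurd ⟨v, h16, h17⟩ hH

omit [DecidableEq V] in
theorem exists_arc (hT : Tour R) {S : Finset V} (h : 2 ≤ S.card) : ∃ u ∈ S, ∃ v ∈ S, R u v := by
  obtain ⟨u, hu, v, hv, huv⟩ := one_lt_card.1 (show 1 < S.card by omega)
  rcases hT.tot u v huv with h | h
  · exact ⟨u, hu, v, hv, h⟩
  · exact ⟨v, hv, u, hu, h⟩

theorem phi_path_II (hT : Tour R) {X e f a p k : ℕ} {T' L : BT} (hT' : T' ≠ .nil) (hLn : L ≠ .nil)
    (hP : Phi R e f a p k T') (hL : PN R X L) (he : 2 ≤ e) (hf : e + 2 ≤ f) (ha : X ≤ a) (hX : 1 ≤ X)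
    (hp : 2 * X + e ≤ p) (hk : X + f ≤ k) {N : V → Prop} {A B W P P₀ : Finset V} (h3 : Disjoint A B)
    (h5 : Disjoint W P) (h6 : P₀ ⊆ P) (h7 : a ≤ W.card) (h8 : p ≤ P₀.card)
    (h9 : ∀ u ∈ P₀, ∃ K ⊆ P, k ≤ K.card ∧ ∀ v ∈ K, R u v) {z ℓ : V} (hz : N z) (hA : Rt R T' z A) (hℓ : N ℓ)
    (hB : Rt R L ℓ B) (hzA : z ∈ A) (hℓB : ℓ ∈ B) (hAU : Disjoint A (W ∪ P)) (hBU : Disjoint B (W ∪ P))
    (hII : R ℓ z) : OutF R (.node T' L) N (A ∪ B ∪ (W ∪ P)) ∨
      OutC R (.node T' L) N (A ∪ B ∪ (W ∪ P)) (W ∪ P) P₀ e f := by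
  classical
  -- the light tree below `ℓ`
  have key : ∀ (Q : Finset V), Q ⊆ W ∪ P → ∀ y S, R ℓ y → Rt R L y S → S ⊆ B.erase ℓ ∪ Q →
      OutF R (.node T' L) N (A ∪ B ∪ (W ∪ P)) := by
    intro Q hQ y S h16 h17 h18
    refine ⟨insert ℓ (A ∪ S), ?_, (rt_mk (hA.under hII) (h17.under h16) ?_ ?_ ?_).emb hℓ⟩
    · intro x hx
      grind
    · rw [disjoint_left] at *
      grind
    · rw [disjoint_left] at *
      grind
    · rw [disjoint_left] at *
      grind
  rcases hL.call hT hLn hB (Q := W) (by rw [disjoint_left] at *; grind) (by omega) with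
    ⟨y, S, h16, h17, h18⟩ | ⟨v, hvW, hvl, hv⟩
  · exact Or.inl (key W subset_union_left y S h16 h17 h18)
  have hvU : v ∈ W ∪ P := mem_union_left _ hvW
  by_cases hvz : R v z
  · refine out_mk (w := v) (C := insert v (A ∪ B)) hvU (by grind) (rt_mk (hA.under hvz) (hB.under hvl) ?_ ?_ h3) ?_
    · grind [disjoint_left]
    · grind [disjoint_left]
    · left
      have : insert v (A ∪ B) ∩ (W ∪ P) ⊆ {v} := by
        rw [disjoint_left] at *
        grind
      have := card_le_card this
      rw [card_singleton] at this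
      omega
  have hzv : R z v := by
    refine (hT.tot z v ?_).resolve_right hvz
    rintro rfl
    exact disjoint_left.1 hAU hzA hvU
  have hℓU : ℓ ∉ W ∪ P := disjoint_left.1 hBU hℓB
  have hℓA : ℓ ∉ A := fun h => disjoint_left.1 h3 h hℓB
  set W' := insert ℓ (W.erase v) with hW'
  have hWm : ∀ x, x ∈ W' ↔ x = ℓ ∨ (x ≠ v ∧ x ∈ W) := by
    intro x
    rw [hW', mem_insert, mem_erase]
  have hW'c : W'.card = W.card := by
    rw [hW', card_insert_of_notMem (by grind), card_erase_of_mem hvW]
    have : 1 ≤ W.card := card_pos.2 ⟨v, hvW⟩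
    omega
  have hd1 : Disjoint A (W' ∪ P) := by
    rw [disjoint_left] at *
    intro x hx hx'
    rw [mem_union, hWm] at hx'
    grind
  have hd2 : Disjoint W' P := by
    rw [disjoint_left] at *
    intro x hx
    rw [hWm] at hx
    grind
  -- vertices of the reserve which can replace `ℓ`
  set RP := P₀.filter (fun u => R u ℓ ∧ Rt R L u (insert u (B.erase ℓ))) with hRP
  have hRm : ∀ u, u ∈ RP ↔ u ∈ P₀ ∧ (R u ℓ ∧ Rt R L u (insert u (B.erase ℓ))) := by
    intro u
    rw [hRP, mem_filter]
  by_cases hRX : X ≤ (P₀ \ RP).card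
  · rcases hL.call hT hLn hB (Q := P₀ \ RP) (by rw [disjoint_left] at *; grind) hRX with
      ⟨y, S, h16, h17, h18⟩ | ⟨u, hu1, hu2, hu3⟩
    · exact Or.inl (key _ (by grind) y S h16 h17 h18)
    · exfalso
      rw [mem_sdiff, hRm] at hu1
      exact hu1.2 ⟨hu1.1, hu2, hu3⟩
  rcases phi_use hT hT' hP hA hd1 hd2 h6 (by omega) h8 h9 with ⟨S, h10, h11⟩ | ⟨w, h10, h11, C, h12, h13, h14, h15⟩
  · left
    refine ⟨insert z (S ∪ insert v (B.erase ℓ)), ?_, (rt_mk h11 (hv.under hzv) ?_ ?_ ?_).emb hz⟩
    · intro x hx
      have := @h10 x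
      rw [mem_union, mem_union, hWm] at this
      grind
    · intro hx
      have := h10 hx
      rw [mem_union, mem_union, hWm] at this
      rw [disjoint_left] at *
      grind
    · rw [disjoint_left] at *
      grind
    · rw [disjoint_left] at *
      intro x hx
      have := h10 hx
      rw [mem_union, mem_union, hWm] at this
      grind
  have hCm : ∀ x, x ∈ C → (x ≠ z ∧ x ∈ A) ∨ (x = ℓ ∨ (x ≠ v ∧ x ∈ W)) ∨ x ∈ P := by
    intro x hx
    have := h12 hx
    rwa [mem_union, mem_union, hWm, mem_erase] at this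
  have hCU : C ∩ (W ∪ P) ⊆ C ∩ (W' ∪ P) := by
    intro x hx
    rw [mem_inter, mem_union] at hx
    rw [mem_inter, mem_union, hWm]
    have := hCm x hx.1
    refine ⟨hx.1, ?_⟩
    rw [disjoint_left] at *
    grind
  have hCUc := card_le_card hCU
  -- the combination of a vertex `u` above `w` and `u'`
  have comb : (C ∩ (W' ∪ P)).card ≤ e → ∀ u ∈ RP, u ∉ C → R u w → ∀ u' ∈ RP, u' ∉ C → R u u' →
      OutF R (.node T' L) N (A ∪ B ∪ (W ∪ P)) ∨ OutC R (.node T' L) N (A ∪ B ∪ (W ∪ P)) (W ∪ P) P₀ e f := by
    intro hce u hu huC huw u' hu' huC' huu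
    rw [hRm] at hu hu'
    have huP := h6 hu.1
    have huP' := h6 hu'.1
    have hne : u ≠ u' := by
      rintro rfl
      exact hT.irr u huu
    refine out_mk (w := u) (C := insert u (C ∪ insert u' (B.erase ℓ))) (mem_union_right _ huP) ?_
      (rt_mk (h13.under huw) (hu'.2.2.under huu) huC ?_ ?_) ?_
    · intro x hx
      rw [mem_insert, mem_union, mem_insert, mem_erase] at hx
      have := hCm x
      grind
    · rw [disjoint_left] at *
      grind
    · rw [disjoint_left] at *
      intro x hx
      have := hCm x hx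
      grind
    · right
      refine ⟨hu.1, ?_⟩
      have h21 : insert u (C ∪ insert u' (B.erase ℓ)) ∩ (W ∪ P) ⊆ insert u (insert u' (C ∩ (W ∪ P))) := by
        rw [disjoint_left] at *
        intro x hx
        grind
      have h22 := card_le_card h21
      have h23 := card_insert_le u (insert u' (C ∩ (W ∪ P)))
      have h24 := card_insert_le u' (C ∩ (W ∪ P))
      omega
  by_cases hwl : w = ℓ
  · -- the heavy tree at `ℓ`
    subst hwl
    have hce : (C ∩ (W' ∪ P)).card ≤ e := by
      rcases h15 with h | ⟨h16, h17⟩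
      · exact h
      · exact absurd (mem_union_right W (h6 h16)) hℓU
    have hR2 : 2 ≤ (RP \ C).card := by
      have h21 : P₀ ⊆ (P₀ \ RP) ∪ (RP \ C) ∪ (C ∩ (W' ∪ P)) := by
        intro x hx
        have := h6 hx
        grind
      have h22 := card_le_card h21
      have h23 := card_union_le ((P₀ \ RP) ∪ (RP \ C)) (C ∩ (W' ∪ P))
      have h24 := card_union_le (P₀ \ RP) (RP \ C)
      omega
    obtain ⟨u, hu, u', hu', huu⟩ := exists_arc hT hR2
    rw [mem_sdiff] at hu hu'
    exact comb hce u hu.1 hu.2 ((hRm u).1 hu.1).2.1 u' hu'.1 hu'.2 huu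
  · have hwU : w ∈ W ∪ P := by
      rw [mem_union, hWm] at h10
      grind
    by_cases hwl2 : R w ℓ
    · refine out_mk (w := w) (C := insert w (A ∪ B)) hwU (by grind) (rt_mk (hA.under h11) (hB.under hwl2) ?_ ?_ h3) ?_
      · grind [disjoint_left]
      · grind [disjoint_left]
      · left
        have : insert w (A ∪ B) ∩ (W ∪ P) ⊆ {w} := by
          rw [disjoint_left] at *
          grind
        have := card_le_card this
        rw [card_singleton] at this
        omega
    · have hlw : R ℓ w := (hT.tot w ℓ hwl).resolve_left hwl2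
      set G := (P.filter (fun v => R w v)) \ C with hG
      have hGm : ∀ v, v ∈ G ↔ (v ∈ P ∧ R w v) ∧ v ∉ C := by
        intro v
        rw [hG, mem_sdiff, mem_filter]
      by_cases hGX : X ≤ G.card
      · have hd : Disjoint B G := by
          rw [disjoint_left] at *
          grind
        rcases hL.call hT hLn hB hd hGX with ⟨y, S, h16, h17, h18⟩ | ⟨v', h16, h17, h18⟩
        · exact Or.inl (key G (by intro x hx; rw [hGm] at hx; grind) y S h16 h17 h18)
        · rw [hGm] at h16
          refine out_mk (w := w) (C := insert w (A ∪ insert v' (B.erase ℓ))) hwU ?_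
            (rt_mk (hA.under h11) (h18.under h16.1.2) ?_ ?_ ?_) ?_
          · intro x hx
            rw [disjoint_left] at *
            grind
          · rw [disjoint_left] at *
            grind
          · rw [disjoint_left] at *
            grind
          · rw [disjoint_left] at *
            grind
          · left
            refine (card_le_two' (a := w) (b := v') ?_).trans he
            rw [disjoint_left] at *
            intro x hx
            grind
      · have hce : (C ∩ (W' ∪ P)).card ≤ e := by
          rcases h15 with h | ⟨h16, h17⟩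
          · exact h
          · exfalso
            obtain ⟨K, h18, h19, h20⟩ := h9 w h16
            have h21 : K \ (C ∩ (W' ∪ P)) ⊆ G := by
              intro x hx
              rw [hGm]
              grind
            have h22 := card_le_card h21
            have h23 := le_card_sdiff (C ∩ (W' ∪ P)) K
            omega
        set G' := (RP.filter (fun u => R u w)) \ C with hG'
        have hGm' : ∀ v, v ∈ G' ↔ (v ∈ RP ∧ R v w) ∧ v ∉ C := by
          intro v
          rw [hG', mem_sdiff, mem_filter]
        have hG'c : 2 ≤ G'.card := by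
          have h21 : P₀ ⊆ (P₀ \ RP) ∪ (G ∪ G' ∪ (C ∩ (W' ∪ P))) := by
            intro x hx
            rw [mem_union, mem_union, mem_union, hGm, hGm']
            have hxP := h6 hx
            by_cases hxR : x ∈ RP
            · right
              by_cases hxC : x ∈ C
              · right
                grind
              · left
                have hxw : w ≠ x := by
                  rintro rfl
                  exact hxC h14
                rcases hT.tot w x hxw with h | h
                · exact Or.inl ⟨⟨hxP, h⟩, hxC⟩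
                · exact Or.inr ⟨⟨hxR, h⟩, hxC⟩
            · left
              exact mem_sdiff.2 ⟨hx, hxR⟩
          have h22 := card_le_card h21
          have h23 := card_union_le (P₀ \ RP) (G ∪ G' ∪ (C ∩ (W' ∪ P)))
          have h24 := card_union_le (G ∪ G') (C ∩ (W' ∪ P))
          have h25 := card_union_le G G'
          omega
        obtain ⟨u, hu, u', hu', huu⟩ := exists_arc hT hG'c
        rw [hGm'] at hu hu'
        exact comb hce u hu.1.1 hu.2 hu.1.2 u' hu'.1.1 hu'.2 huu

theorem phi_path (hT : Tour R) {X e f a p k : ℕ} {T' L : BT} (hT' : T' ≠ .nil) (hLn : L ≠ .nil)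
    (hP : Phi R e f a p k T') (hL : PN R X L) (he : 2 ≤ e) (hf : e + 2 ≤ f) (ha : X ≤ a) (hX : 1 ≤ X)
    (hp : 2 * X + e ≤ p) (hk : X + f ≤ k) : Phi R e f a p k (.node T' L) := by
  intro N A B W P P₀ h1 h2 h3 h4 h5 h6 h7 h8 h9
  obtain ⟨z, hz, hA⟩ := h1.root hT'
  obtain ⟨ℓ, hℓ, hB⟩ := h2.root hLn
  have hzA := hA.mem hT'
  have hℓB := hB.mem hLn
  have hAU : Disjoint A (W ∪ P) := disjoint_of_subset_left subset_union_left h4
  have hBU : Disjoint B (W ∪ P) := disjoint_of_subset_left subset_union_right h4
  have hzl : z ≠ ℓ := by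
    rintro rfl
    exact disjoint_left.1 h3 hzA hℓB
  rcases hT.tot z ℓ hzl with hI | hII
  · exact phi_path_I hT hT' hLn hP hL he hf hp hk h3 h5 h6 h7 h8 h9 hz hA hℓ hB hzA hℓB hAU hBU hI
  · exact phi_path_II hT hT' hLn hP hL he hf ha hX hp hk h3 h5 h6 h7 h8 h9 hz hA hℓ hB hzA hℓB hAU hBU hII

end AE32
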